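import Pool.Agent.L7h13.NQ.Reg
import Pool.Agent.L7h13.NQ.Key
import Pool.Agent.TH518.CW.TwoC

/-!
# Project NQ, collisions: eighteen and twenty points

See `TH518.CW.TwoC` for eleven and thirteen points.
-/

set_option autoImplicit false

namespace Pool.Agent.L7h13.NQ

open Pool.Agent.TH603.EL Pool.Agent.TH716.CF Pool.Agent.TH518.CW Pool.Agent.L7h52.NQ
open Pool.Agent.H932R2 Pool.Agent.H932R3 Pool.Agent.TH545.CF

universe u

/-- independence from the emptiness statement with simple points -/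
theorem ind4_of_emp (hTu : S_TUBE) (hΘ : S_THETA) (hAs : S_ASM) {k : Type u} [Field k] [CharP k 0]
    {r m d : ℕ} {τ : ℝ}
    (h0 : 0 < τ) (h1 : τ < 1 / 2) (hle : r * (m + 1).choose 2 ≤ (d + 2).choose 2)
    (hE : EmpG 0 (fun o : Option (Fin ((d + 2).choose 2 - r * (m + 1).choose 2)) =>
      o.elim r fun _ => 1) (fun o => o.elim m fun _ => 1) (E4 τ d)) :
    ∃ F : MvPolynomial (Fin (r + 1)) k, F ≠ 0 ∧
      ∀ (c : k) (a : Fin r → k), MvPolynomial.eval (Fin.cons c a : Fin (r + 1) → k) F ≠ 0 →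
        ∀ d' ≥ d, JetDim r m c a d' := by
  classical
  obtain ⟨L, _, _, c0, a0, lm, hlm⟩ := key4_coll_v hTu hΘ hAs h0 h1 hE
  have h2 := rows_of_forms (K := L) (r := r) (m := m) (d := d)
    (n := (d + 2).choose 2 - r * (m + 1).choose 2) (c0 := c0) (a0 := a0) (by
      rw [card_Tfin_choose, card_EE_eq']
      omega) lm (fun P hP hP' h3 => hlm P hP hP' h3)
  obtain ⟨F, hF, hF'⟩ := open_rank (L := k) 0 h2
  refine ⟨F, hF, fun c a hc d' hd' => ?_⟩
  have h3 := hF' c a hc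
  rw [card_EE_eq'] at h3
  exact jet_indep h3 d' hd'

section
variable {q v n : ℕ} {K σ : ℝ}

theorem Num4.t0 (h : Num4 q v n K σ) : 0 < (24 - K) / 16 := by
  have := h.hK2
  linarith

theorem Num4.t1 (h : Num4 q v n K σ) : (24 - K) / 16 < 1 / 2 := by
  have := h.hK
  linarith

/-- the threshold -/
theorem Num4.thr (h : Num4 q v n K σ) (d : ℕ) :
    A4 K d + (A4 K d - (K + v)) / (q * (K + v) - 1) = σ * (2 * d + 3 - σ) / 2 := by
  have hD := h.den
  have h1 := h.sg
  have hL : K + v = σ * (4 + σ) / 2 := by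
    have h2 := h.kk
    have h3 := h.vv
    linear_combination h2 + (1 / 2) * h3 - (1 / 2) * h1
  have hq : (q : ℝ) * (σ ^ 2 - 16) = 4 := by
    have h2 : (q : ℝ) * v = 2 := by exact_mod_cast h.hqv
    have h3 := h.vv
    rw [h1]
    linear_combination 2 * h2 - (q : ℝ) * h3
  have hA : A4 K d = (4 + σ) * (2 * d - 1) / 4 := by
    unfold A4
    rw [h.kk]
    ring
  rw [add_div' _ _ _ hD.ne', div_eq_iff hD.ne', hA, hL]
  linear_combination (σ / 2) * (σ / 2 - (2 * (d : ℝ) - 1) / 4) * hq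

theorem Num4.y_eq (h : Num4 q v n K σ) (d : ℕ) (l : ℝ) :
    y4 v K (A4 K d) l = (4 + σ) / 4 * (2 * d - 1 - 2 * σ * l) := by
  have h1 := h.sg
  have hL : K + v = σ * (4 + σ) / 2 := by
    have h2 := h.kk
    have h3 := h.vv
    linear_combination h2 + (1 / 2) * h3 - (1 / 2) * h1
  unfold y4 A4
  rw [hL, h.kk]
  ring

theorem thr4 (h : Num4 q v n K σ) (m d : ℕ) :
    (n : ℝ) * m ≤ σ * (2 * d + 3 - σ) / 2 ↔ σ * (2 * m + 1) ≤ 2 * d + 3 := by
  have h1 := h.sg
  have h4 := h.s4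
  have e1 : σ * (2 * d + 3 - σ) / 2 - (n : ℝ) * m = σ / 2 * (2 * d + 3 - σ * (2 * m + 1)) := by
    rw [← h1]; ring
  constructor
  · intro h
    have h2 : 0 ≤ σ / 2 * (2 * d + 3 - σ * (2 * m + 1)) := by rw [← e1]; linarith
    have h4 := nonneg_of_mul_nonneg_right h2 (by linarith)
    linarith
  · intro h
    have h2 : 0 ≤ σ / 2 * (2 * d + 3 - σ * (2 * m + 1)) := mul_nonneg (by linarith) (by linarith)
    rw [← e1] at h2
    linarith

theorem ind4 (hTu : S_TUBE) (hΘ : S_THETA) (hAs : S_ASM) (h : Num4 q v n K σ)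
    {k : Type u} [Field k] [CharP k 0] {m d : ℕ} (hn : 2 ≤ n)
    (hT : σ * (2 * m + 1) ≤ 2 * d + 3) :
    ∃ F : MvPolynomial (Fin (n + 1)) k, F ≠ 0 ∧
      ∀ (c : k) (a : Fin n → k), MvPolynomial.eval (Fin.cons c a : Fin (n + 1) → k) F ≠ 0 →
        ∀ d' ≥ d, JetDim n m c a d' := by
  classical
  have hT' := (thr4 h m d).2 hT
  obtain ⟨W, hW, hWS, hW0, hrow⟩ := exists_W4 h (A := A4 K d) (x0 := 0) (M := m)
    (R := fun l => n * (m - l))
    (by
      intro l hl
      rw [h.sum, h.thr]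
      push_cast [Nat.cast_sub hl.le]
      linarith)
    (by
      intro k' l hkl hl
      push_cast [Nat.cast_sub hl.le, Nat.cast_sub (hkl.trans hl.le)]
      have h1 : (k' : ℝ) ≤ l := by exact_mod_cast hkl
      have h2 : (2 : ℝ) ≤ n := by exact_mod_cast hn
      nlinarith)
  rw [sum_rows] at hW
  obtain ⟨hfin, hcard⟩ := h4_card h d 0
  have hWle : W.card ≤ (FlS (H4 q v K (A4 K d) False 0)).ncard := by
    rw [← Set.ncard_coe_finset W]
    exact Set.ncard_le_ncard (fun q hq => hWS q hq) hfin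
  have hle : n * (m + 1).choose 2 ≤ (d + 2).choose 2 := by omega
  refine ind4_of_emp hTu hΘ hAs h.t0 h.t1 hle ?_
  apply e4_of_bk h.hK h.hK2
  rcases (tx_sub d).eq_empty_or_singleton with hTx | ⟨pt, hTx⟩
  · rw [hTx, Set.ncard_empty] at hcard
    rw [hTx, Set.union_empty]
    apply chain4_bk h (x0 := 0)
    exact EmpG_add (v := (d + 2).choose 2 - n * (m + 1).choose 2) (Or.inl rfl) hfin hWS (by omega)
      hW0 hrow
  · rw [hTx, Set.ncard_singleton] at hcard
    rw [hTx, Set.union_singleton]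
    obtain ⟨v', hv'⟩ : ∃ v', (d + 2).choose 2 - n * (m + 1).choose 2 = v' + 1 := by
      refine ⟨(d + 2).choose 2 - n * (m + 1).choose 2 - 1, ?_⟩
      omega
    rw [hv']
    apply EmpG_insert
    apply chain4_bk h (x0 := 0)
    exact EmpG_add (v := v') (Or.inl rfl) hfin hWS (by omega) hW0 hrow

theorem emp4_coll (hTu : S_TUBE) (hΘ : S_THETA) (hAs : S_ASM) (h : Num4 q v n K σ)
    {k : Type u} [Field k] [CharP k 0] {m d : ℕ} (hd : 1 ≤ d)
    (hT : 2 * (d : ℝ) + 3 < σ * (2 * m + 1))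
    (hc : d % 4 = 2 ∨ d % 4 = 3 ∨ (d % 4 = 1 ∧ 2 * (d : ℝ) - 1 < 2 * σ * m) ∨
      (4 + σ) * (2 * d - 1 - 2 * σ * m) < -4) :
    ∃ F : MvPolynomial (Fin (n + 1)) k, F ≠ 0 ∧
      ∀ (c : k) (a : Fin n → k), MvPolynomial.eval (Fin.cons c a : Fin (n + 1) → k) F ≠ 0 →
        ∀ d' ≤ d, JetDim n m c a d' := by
  have h4 := h.s4
  have hdR : (1 : ℝ) ≤ d := by exact_mod_cast hd
  have hApos : 0 < A4 K d := by
    unfold A4
    have := h.hK
    apply mul_pos (by linarith)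
    linarith
  have hsum : A4 K d + (A4 K d - (K + v)) / (q * (K + v) - 1) < n * m := by
    rw [h.thr, ← not_le]
    intro h5
    have := (thr4 h m d).1 h5
    linarith
  have hlast : (4 + σ) * (2 * d - 1 - 2 * σ * m) < -4 → y4 v K (A4 K d) m < -1 := by
    intro h5
    rw [h.y_eq]
    linarith
  have hy0 : 2 * (d : ℝ) - 1 < 2 * σ * m → y4 v K (A4 K d) m < 0 := by
    intro h5
    rw [h.y_eq]
    have : 0 < (4 + σ) / 4 * (2 * σ * m - (2 * d - 1)) := mul_pos (by linarith) (by linarith)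
    linarith
  have hE : EmpG 0 (fun _ : Unit => n) (fun _ => m) (E4 ((24 - K) / 16) d) := by
    by_cases hd4 : d % 4 = 0
    · have hy := hlast (by
        rcases hc with hc | hc | hc | hc
        · omega
        · omega
        · omega
        · exact hc)
      refine chain4 h (P := (Tx d).Nonempty) (x0 := -1) (by norm_num) ?_ id ?_ ?_
      · rintro ⟨x, j⟩ ⟨_, h2⟩
        simp only at h2 ⊢
        omega
      · intro _
        push_cast
        linarith
      · exact emp_u4 h (by norm_num) (fun _ => by push_cast; exact hy) hsum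
    · refine chain4 h (P := (Tx d).Nonempty) (x0 := 0) le_rfl ?_ id ?_ ?_
      · rintro ⟨x, j⟩ ⟨_, h2⟩
        simp only at h2 ⊢
        omega
      · intro _
        push_cast
        exact hApos.le
      · refine emp_u4 h le_rfl (fun hne => ?_) hsum
        obtain ⟨⟨x, j⟩, _, h2⟩ := hne
        simp only at h2
        push_cast
        rcases hc with hc | hc | hc | hc
        · omega
        · omega
        · exact hy0 hc.2
        · have := hlast hc
          linarith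
  obtain ⟨L, _, _, c0, a0, h0⟩ := key4_coll hTu hΘ hAs h.t0 h.t1 hE
  obtain ⟨F, hF, hF'⟩ := coll_transfer (L := k) 0 (r := n) (m := m) (c0 := c0) (a0 := a0)
    (d := d) (fun P hP hP' => h0 P hP hP')
  refine ⟨F, hF, fun c a hc d' hd' => ?_⟩
  exact jet_full ((hF' c a hc).mono hd').rk d' le_rfl

theorem two4_coll (hTu : S_TUBE) (hΘ : S_THETA) (hAs : S_ASM) (h : Num4 q v n K σ)
    (hn : 10 ≤ n) {m : ℕ} (k : Type u) [Field k] [CharZero k] :
    ∃ F : MvPolynomial (Fin (n + 1)) k, F ≠ 0 ∧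
      ∀ (c : k) (a : Fin n → k), MvPolynomial.eval (Fin.cons c a : Fin (n + 1) → k) F ≠ 0 →
        ∀ d : ℕ, (d % 4 = 2 ∨ d % 4 = 3 ∨ σ * (2 * m + 1) ≤ 2 * d + 3 ∨
          (d % 4 = 1 ∧ 2 * (d : ℝ) - 1 < 2 * σ * m) ∨
          (4 + σ) * (2 * d - 1 - 2 * σ * m) < -4) → JetDim n m c a d := by
  classical
  have hchar : CharP k 0 := CharP.ofCharZero k
  have h4 := h.s4
  obtain ⟨F1, hF1, hF1'⟩ := coll_all (r := n) (m := m) hn k
  -- independence
  have hex : ∃ d : ℕ, σ * (2 * m + 1) ≤ 2 * d + 3 := by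
    obtain ⟨d, hd⟩ := exists_nat_ge (σ * (2 * m + 1))
    exact ⟨d, by have : (0 : ℝ) ≤ d := Nat.cast_nonneg d; linarith⟩
  have hs := Nat.find_spec hex
  obtain ⟨F2, hF2, hF2'⟩ := ind4 hTu hΘ hAs h (k := k) (m := m) (d := Nat.find hex) (by omega) hs
  -- emptiness
  have hF3 : ∀ d : ℕ, ∃ F : MvPolynomial (Fin (n + 1)) k, F ≠ 0 ∧
      ∀ (c : k) (a : Fin n → k), MvPolynomial.eval (Fin.cons c a : Fin (n + 1) → k) F ≠ 0 →
        d < Nat.find hex → 1 ≤ d → (d % 4 = 2 ∨ d % 4 = 3 ∨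
          (d % 4 = 1 ∧ 2 * (d : ℝ) - 1 < 2 * σ * m) ∨
          (4 + σ) * (2 * d - 1 - 2 * σ * m) < -4) → JetDim n m c a d := by
    intro d
    by_cases hg : d < Nat.find hex ∧ 1 ≤ d ∧ (d % 4 = 2 ∨ d % 4 = 3 ∨
          (d % 4 = 1 ∧ 2 * (d : ℝ) - 1 < 2 * σ * m) ∨
          (4 + σ) * (2 * d - 1 - 2 * σ * m) < -4)
    · obtain ⟨F, hF, hF'⟩ := emp4_coll hTu hΘ hAs h (k := k) (m := m) (d := d) hg.2.1
        (not_le.1 (Nat.find_min hex hg.1)) hg.2.2
      exact ⟨F, hF, fun c a hc _ _ _ => hF' c a hc d le_rfl⟩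
    · exact ⟨1, one_ne_zero, fun c a _ h1 h2 h3 => absurd ⟨h1, h2, h3⟩ hg⟩
  choose F3 hF3 hF3' using hF3
  refine ⟨F1 * (F2 * ∏ d ∈ Finset.range (Nat.find hex), F3 d), mul_ne_zero hF1 (mul_ne_zero hF2
    (Finset.prod_ne_zero_iff.2 fun d _ => hF3 d)), fun c a hc d hd => ?_⟩
  rw [map_mul, map_mul, map_prod] at hc
  have c1 := left_ne_zero_of_mul hc
  have c2 := left_ne_zero_of_mul (right_ne_zero_of_mul hc)
  have c3 := Finset.prod_ne_zero_iff.1 (right_ne_zero_of_mul (right_ne_zero_of_mul hc))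
  by_cases hdD : Nat.find hex ≤ d
  · exact hF2' c a c2 d hdD
  · have hdD' : d < Nat.find hex := by omega
    rcases Nat.eq_zero_or_pos d with h0 | h0
    · refine hF1' c a c1 d (Or.inl ?_)
      rw [h0]
      push_cast
      positivity
    · refine hF3' d c a (c3 d (Finset.mem_range.2 hdD')) hdD' h0 ?_
      rcases hd with hd | hd | hd | hd | hd
      · exact Or.inl hd
      · exact Or.inr (Or.inl hd)
      · exact absurd hd (Nat.find_min hex hdD')
      · exact Or.inr (Or.inr (Or.inl hd))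
      · exact Or.inr (Or.inr (Or.inr hd))

end

theorem not_sq18 : ¬ IsSquare (18 : ℕ) := by
  rintro ⟨k, hk⟩
  have : k < 5 := by nlinarith
  interval_cases k <;> omega

theorem not_sq20 : ¬ IsSquare (20 : ℕ) := by
  rintro ⟨k, hk⟩
  have : k < 5 := by nlinarith
  interval_cases k <;> omega

theorem irr_K4 {n : ℕ} (hn : ¬ IsSquare n) : Irrational (8 + 2 * √(n : ℝ)) := by
  have h1 : 8 + 2 * √(n : ℝ) = ((2 : ℕ) : ℝ) * √(n : ℝ) + ((8 : ℕ) : ℝ) := by
    push_cast
    ring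
  rw [h1]
  exact ((irr_sqrt hn).natCast_mul (by norm_num)).add_natCast 8

theorem num4_20 : Num4 1 2 20 (8 + 2 * √(20 : ℝ)) (√(20 : ℝ)) := by
  have hs : √(20 : ℝ) ^ 2 = 20 := Real.sq_sqrt (by norm_num)
  have h0 : 0 ≤ √(20 : ℝ) := Real.sqrt_nonneg _
  have h3 : 4 < √(20 : ℝ) := by nlinarith
  have h4 : √(20 : ℝ) < 5 := by nlinarith
  refine ⟨by linarith, by linarith, le_rfl, by norm_num, rfl, ?_, ?_, ?_, by push_cast; exact hs, h3,
    rfl, by norm_num⟩
  · push_cast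
    linear_combination 4 * hs
  · push_cast
    linear_combination 4 * hs
  · have := irr_K4 not_sq20
    push_cast at this
    exact this

theorem num4_18 : Num4 2 1 18 (8 + 2 * √(18 : ℝ)) (√(18 : ℝ)) := by
  have hs : √(18 : ℝ) ^ 2 = 18 := Real.sq_sqrt (by norm_num)
  have h0 : 0 ≤ √(18 : ℝ) := Real.sqrt_nonneg _
  have h3 : 4 < √(18 : ℝ) := by nlinarith
  have h4 : √(18 : ℝ) < 5 := by nlinarith
  refine ⟨by linarith, by linarith, by norm_num, le_rfl, rfl, ?_, ?_, ?_, by push_cast; exact hs, h3,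
    rfl, by norm_num⟩
  · push_cast
    linear_combination 8 * hs
  · push_cast
    linear_combination 8 * hs
  · have := irr_K4 not_sq18
    push_cast at this
    exact this

end Pool.Agent.L7h13.NQ
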