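import Pool.Agent.L7h13.NQ.Coll
import Pool.Agent.L7h21.NQ.Star
import Pool.Agent.L7h21.NQ.Inj
import Pool.Agent.L7h73.NQ.Refl
import Pool.Agent.L7h73.NQ.Edge
import Pool.Agent.L7h73.NQ.Lead
import Pool.Agent.L7h64.NQ.Theta
import Pool.Agent.L7h64.NQ.Min
import Pool.Agent.L7h65.NQ.Cev
import Pool.Agent.L7h47.NQ.Asm
import Pool.Agent.L7h36.NQ.Dec
import Pool.Agent.L7h36.NQ.Tube
import Pool.Agent.TH885.NW.Prop

/-! Project NQ, collisions: the parts put together. -/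

set_option autoImplicit false

namespace Pool.Agent.L7h13.NQ

open Pool.Agent.L7h52.NQ Pool.Agent.TH545.CF Pool.Agent.H932R2 Pool.Agent.H932R3

universe u

theorem s_asm : S_ASM := L7h47.NQ.s_ASM L7h36.NQ.s_DEC
  (L7h73.NQ.s_LEAD L7h21.NQ.s_STAR L7h21.NQ.s_INJ (L7h73.NQ.s_EDGE L7h73.NQ.s_REFL) L7h64.NQ.s_THETA
    L7h64.NQ.s_MIN) L7h65.NQ.s_CEV

/-- **collisions of eighteen or twenty points** -/
theorem coll4 {r : ℕ} (hr : r = 18 ∨ r = 20) (m : ℕ) (k : Type u) [Field k] [CharZero k] :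
    ∃ F : MvPolynomial (Fin (r + 1)) k, F ≠ 0 ∧
      ∀ (c : k) (a : Fin r → k), MvPolynomial.eval (Fin.cons c a : Fin (r + 1) → k) F ≠ 0 →
        ∀ d : ℕ, (d % 4 = 2 ∨ d % 4 = 3 ∨ √(r : ℝ) * (2 * m + 1) ≤ 2 * d + 3 ∨
          (d % 4 = 1 ∧ 2 * (d : ℝ) - 1 < 2 * √(r : ℝ) * m) ∨
          (4 + √(r : ℝ)) * (2 * d - 1 - 2 * √(r : ℝ) * m) < -4) → JetDim r m c a d := by
  rcases hr with rfl | rfl
  · have h := two4_coll L7h36.NQ.s_TUBE L7h64.NQ.s_THETA s_asm num4_18 (by norm_num) (m := m) k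
    push_cast
    exact h
  · have h := two4_coll L7h36.NQ.s_TUBE L7h64.NQ.s_THETA s_asm num4_20 (by norm_num) (m := m) k
    push_cast
    exact h

end Pool.Agent.L7h13.NQ
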