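import Pool.Agent.L7h13.NQ.Reg
import Pool.Agent.TH518.CW.TwoC

/-!
# Project NQ, collisions: one flattening of a triangular block, for every number of points

The block with the slope `K`, the width `M = δ ^ 2` and the apex at the height `η`, and finitely many
more exponents.
-/

set_option autoImplicit false

namespace Pool.Agent.L7h13.NQ

open Pool.Agent.TH603.EL Pool.Agent.TH716.CF Pool.Agent.TH518.CW
open Pool.Agent.N388.EFC

/-- the block with its apex at the height `η` -/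
def BB (M : ℕ) (K η : ℝ) : Set (ℤ × ℤ) :=
  {p | 0 ≤ p.2 ∧ (K - M) * (η - p.2) ≤ p.1 ∧ (p.1 : ℝ) ≤ K * (η - p.2)}

/-- the parameters: `n` points, the shear `c` -/
structure Par (M n : ℕ) (c : ℤ) (K δ σ : ℝ) : Prop where
  d2 : δ ^ 2 = M
  s2 : σ ^ 2 = n
  d1 : 1 ≤ δ
  ds : δ < σ
  sd : σ ≤ 2 * δ
  hK : K = M + c - δ * σ
  hc : δ * σ < c

/-- the sheared column -/
def ca (c : ℤ) (p : ℤ × ℤ) : ℤ := p.1 + c * p.2

/-- the same, measured from the left end of the block -/
noncomputable def cr (c : ℤ) (δ σ η : ℝ) (a : ℤ) : ℝ := (a : ℝ) - (c - δ * σ) * η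

section
variable {M n : ℕ} {c : ℤ} {K δ σ η : ℝ}

theorem bb_iff (h : Par M n c K δ σ) {p : ℤ × ℤ} :
    p ∈ BB M K η ↔ 0 ≤ p.2 ∧ δ * σ * p.2 ≤ cr c δ σ η (ca c p) ∧
      cr c δ σ η (ca c p) ≤ M * η + (δ * σ - M) * p.2 := by
  have hK := h.hK
  unfold BB cr ca
  constructor
  · rintro ⟨h1, h2, h3⟩
    rw [hK] at h2 h3
    push_cast
    exact ⟨h1, by linarith, by linarith⟩
  · rintro ⟨h1, h2, h3⟩
    push_cast at h2 h3
    refine ⟨h1, ?_, ?_⟩
    · rw [hK]; linarith
    · rw [hK]; linarith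

theorem Par.s0 (h : Par M n c K δ σ) : 0 < δ * σ := by
  have := h.d1
  have := h.ds
  exact mul_pos (by linarith) (by linarith)

theorem Par.sM (h : Par M n c K δ σ) : 0 < δ * σ - M := by
  have := h.d1
  have := h.ds
  rw [← h.d2]
  nlinarith

theorem Par.ns (h : Par M n c K δ σ) : 0 < n - δ * σ := by
  have := h.d1
  have := h.ds
  rw [← h.s2]
  nlinarith

/-- the right end of the row `k` -/
theorem Par.right (h : Par M n c K δ σ) {u b k : ℝ} (h1 : δ * σ * (b + k) ≤ u)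
    (h2 : u ≤ M * η + (δ * σ - M) * b) : u ≤ δ * σ * η - (n - δ * σ) * k := by
  have hs := h.s0
  have hM := h.sM
  have hd := h.d1
  have hds := h.ds
  -- multiply by `M / s = δ / σ`
  have e1 : (δ * σ - M) * b * (δ * σ) ≤ (δ * σ - M) * (u - δ * σ * k) := by
    have : b * (δ * σ) ≤ u - δ * σ * k := by linarith
    have := mul_le_mul_of_nonneg_left this hM.le
    linarith
  have e2 : u * (δ * σ) ≤ (M * η + (δ * σ - M) * b) * (δ * σ) :=
    mul_le_mul_of_nonneg_right h2 hs.le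
  have e3 : u * M ≤ M * η * (δ * σ) - (δ * σ - M) * (δ * σ) * k := by
    linarith
  have hM0 : (0 : ℝ) < M := by rw [← h.d2]; positivity
  have e4 : u * M ≤ (δ * σ * η - (n - δ * σ) * k) * M := by
    have e5 : (δ * σ - M) * (δ * σ) = (n - δ * σ) * M := by
      rw [← h.d2, ← h.s2]; ring
    have e6 : (δ * σ * η - (n - δ * σ) * k) * M = M * η * (δ * σ) - (n - δ * σ) * M * k := by ring
    rw [e6, ← e5]
    exact e3
  exact le_of_mul_le_mul_right e4 hM0

/-- the conditions on the additional exponents -/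
structure Extra (n m : ℕ) (c : ℤ) (δ σ η : ℝ) (T : Set (ℤ × ℤ)) : Prop where
  pos : ∀ p ∈ T, 0 ≤ p.2
  bd : ∀ p ∈ T, (δ * σ * η < cr c δ σ η (ca c p) ∧ cr c δ σ η (ca c p) < n * m) ∨
    (0 < δ * σ * p.2 - cr c δ σ η (ca c p) ∧ cr c δ σ η (ca c p) ≤ δ * σ * η ∧
      δ * δ * σ * η + σ * (δ * σ * p.2 - cr c δ σ η (ca c p)) < δ * (n * m))
  col : ∀ p ∈ T, ∀ p' ∈ T, ca c p = ca c p' → p = p'
  dif : ∀ p ∈ T, ∀ p' ∈ T, ca c p - ca c p' < n

/-- the rows after the flattening -/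
def VV (M n : ℕ) (c : ℤ) (δ σ η : ℝ) (T : Set (ℤ × ℤ)) : Set (ℤ × ℤ) :=
  {q | 0 ≤ q.2 ∧ ((δ * σ * q.2 ≤ cr c δ σ η q.1 ∧
      cr c δ σ η q.1 ≤ δ * σ * η - (n - δ * σ) * q.2) ∨
    ∃ p ∈ T, q.1 = ca c p ∧ (q.2 = 0 ∨ ∃ b : ℤ, 0 ≤ b ∧ q.2 ≤ p.2 - b ∧
      δ * σ * b ≤ cr c δ σ η (ca c p) ∧ cr c δ σ η (ca c p) ≤ M * η + (δ * σ - M) * b))}

/-- the sheared set -/
def SB (c : ℤ) (S : Set (ℤ × ℤ)) : Set (ℤ × ℤ) := {q | ((q.1 - c * q.2, q.2) : ℤ × ℤ) ∈ S}

theorem sb_ca (c : ℤ) (q : ℤ × ℤ) : ca c ((q.1 - c * q.2, q.2) : ℤ × ℤ) = q.1 := by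
  unfold ca
  simp only
  ring

theorem flat_vv (h : Par M n c K δ σ) {m : ℕ} {T : Set (ℤ × ℤ)} (hT : Extra n m c δ σ η T)
    {a b t k : ℤ} (h1 : ((a, b) : ℤ × ℤ) ∈ SB c (BB M K η ∪ T))
    (h2 : ((a, b + t) : ℤ × ℤ) ∈ SB c (BB M K η ∪ T)) (hk : 0 ≤ k) (hkt : k ≤ t) :
    ((a, k) : ℤ × ℤ) ∈ VV M n c δ σ η T := by
  have hs := h.s0
  have hM := h.sM
  have hkt' : (k : ℝ) ≤ t := by exact_mod_cast hkt
  have c1 : ca c ((a - c * b, b) : ℤ × ℤ) = a := sb_ca c (a, b)
  have c2 : ca c ((a - c * (b + t), b + t) : ℤ × ℤ) = a := sb_ca c (a, b + t)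
  refine ⟨hk, ?_⟩
  rcases h1 with h1 | h1
  · have g1 := (bb_iff h).1 h1
    simp only at g1
    rw [c1] at g1
    obtain ⟨g1, g2, g3⟩ := g1
    rcases h2 with h2 | h2
    · have g4 := (bb_iff h).1 h2
      simp only at g4
      rw [c2] at g4
      obtain ⟨g4, g5, g6⟩ := g4
      push_cast at g5
      left
      have hb : (0 : ℝ) ≤ b := by exact_mod_cast g1
      have e1 : δ * σ * (b + k) ≤ cr c δ σ η a := by
        have : δ * σ * (b + k) ≤ δ * σ * (b + t) :=
          mul_le_mul_of_nonneg_left (by linarith) hs.le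
        linarith
      refine ⟨?_, h.right e1 g3⟩
      simp only
      have : 0 ≤ δ * σ * b := mul_nonneg hs.le hb
      linarith
    · right
      refine ⟨_, h2, by rw [c2], Or.inr ⟨b, g1, by simp only; omega, ?_, ?_⟩⟩
      · rw [c2]; exact g2
      · rw [c2]; exact g3
  · rcases h2 with h2 | h2
    · exfalso
      have g4 := (bb_iff h).1 h2
      simp only at g4
      rw [c2] at g4
      obtain ⟨g4, g5, g6⟩ := g4
      have ht0 : (0 : ℝ) ≤ t := by
        have : 0 ≤ t := by omega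
        exact_mod_cast this
      rcases hT.bd _ h1 with ⟨g7, _⟩ | ⟨g7, _, _⟩
      · rw [c1] at g7
        have := h.right (k := 0) (b := ((b + t : ℤ) : ℝ)) (by linarith) g6
        linarith
      · rw [c1] at g7
        simp only at g7
        push_cast at g5
        have : 0 ≤ δ * σ * t := mul_nonneg hs.le ht0
        linarith
    · right
      have e1 := hT.col _ h1 _ h2 (by rw [c1, c2])
      have e2 := congrArg Prod.snd e1
      simp only at e2
      refine ⟨_, h1, by rw [c1], Or.inl ?_⟩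
      simp only
      omega

/-- the rows which the additional exponents reach -/
theorem ext_row (h : Par M n c K δ σ) {m : ℕ} {T : Set (ℤ × ℤ)} (hT : Extra n m c δ σ η T)
    (hη : 0 ≤ η) (hm : δ * σ * η < n * m) {p : ℤ × ℤ} (hp : p ∈ T) {k g : ℤ} (hk0 : 0 ≤ k)
    (hkg : k ≤ g)
    (hq : g = 0 ∨ ∃ b : ℤ, 0 ≤ b ∧ g ≤ p.2 - b ∧
      δ * σ * b ≤ cr c δ σ η (ca c p) ∧ cr c δ σ η (ca c p) ≤ M * η + (δ * σ - M) * b) :
    k < m ∧ cr c δ σ η (ca c p) - δ * σ * k < n * (m - k) ∧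
      δ * σ * η - (n - δ * σ) * k - cr c δ σ η (ca c p) < n * (m - k) := by
  have hs := h.s0
  have hM := h.sM
  have hns := h.ns
  have hd := h.d1
  have hds := h.ds
  have hsd := h.sd
  have hn0 : (0 : ℝ) < n := by
    rw [← h.s2]; exact pow_pos (by linarith) 2
  have hp2 : (0 : ℝ) ≤ p.2 := by exact_mod_cast hT.pos p hp
  have hm0 : (0 : ℝ) < m := by
    have : 0 < (n : ℝ) * m := lt_of_le_of_lt (mul_nonneg hs.le hη) hm
    exact (mul_pos_iff_of_pos_left hn0).1 this
  obtain ⟨u, hu⟩ : ∃ u : ℝ, u = cr c δ σ η (ca c p) := ⟨_, rfl⟩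
  have hbd := hT.bd p hp
  rw [← hu] at hbd hq ⊢
  rcases hq with hq | ⟨b, hb0, hb1, hb2, hb3⟩
  · have hk : k = 0 := by omega
    subst hk
    have hm1 : (0 : ℤ) < m := by exact_mod_cast hm0
    refine ⟨hm1, ?_, ?_⟩
    · rcases hbd with ⟨g1, g2⟩ | ⟨g1, g2, g3⟩
      · push_cast; linarith
      · push_cast; linarith
    · rcases hbd with ⟨g1, g2⟩ | ⟨g1, g2, g3⟩
      · push_cast
        have : 0 < (n : ℝ) * m := mul_pos hn0 hm0
        linarith
      · push_cast
        -- `u ≥ s p₂ - ε ≥ - ε`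
        have e1 : 0 ≤ δ * σ * p.2 := mul_nonneg hs.le hp2
        have e2 : δ * (δ * σ * p.2 - u) ≤ σ * (δ * σ * p.2 - u) :=
          mul_le_mul_of_nonneg_right hds.le g1.le
        have e3 : δ * (δ * σ * η + (δ * σ * p.2 - u)) < δ * (n * m) := by linarith
        have e4 := lt_of_mul_lt_mul_left e3 (by linarith)
        linarith
  · have hbR : (0 : ℝ) ≤ b := by exact_mod_cast hb0
    have hkR : (0 : ℝ) ≤ k := by exact_mod_cast hk0
    have hkb : (k : ℝ) ≤ p.2 - b := by
      have : k ≤ p.2 - b := by omega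
      exact_mod_cast this
    rcases hbd with ⟨g1, g2⟩ | ⟨g1, g2, g3⟩
    · exfalso
      have := h.right (k := 0) (b := (b : ℝ)) (by linarith) hb3
      linarith
    · obtain ⟨ε, hε⟩ : ∃ ε : ℝ, ε = δ * σ * p.2 - u := ⟨_, rfl⟩
      rw [← hε] at g1 g3
      have e2 : δ * ε ≤ σ * ε := mul_le_mul_of_nonneg_right hds.le g1.le
      have e3 : δ * (δ * σ * η + ε) < δ * (n * m) := by linarith
      have e4 : δ * σ * η + ε < n * m := lt_of_mul_lt_mul_left e3 (by linarith)
      -- `(n - s) t ≤ s η - u + (σ / δ - 1) ε`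
      have e5 : δ * (u + (n - δ * σ) * k) ≤ δ * (δ * σ * η) + (σ - δ) * ε := by
        have f1 : (δ * σ - M) * b ≤ (δ * σ - M) * (p.2 - k) :=
          mul_le_mul_of_nonneg_left (by linarith) hM.le
        have f2 : u ≤ M * η + (δ * σ - M) * (p.2 - k) := by linarith
        have f3 : σ * u ≤ σ * (M * η + (δ * σ - M) * (p.2 - k)) :=
          mul_le_mul_of_nonneg_left f2 (by linarith)
        have f4 : σ * (M * η + (δ * σ - M) * (p.2 - k)) =
            δ * (δ * σ * η) + (σ - δ) * (δ * σ * p.2) - δ * ((n - δ * σ) * k) := by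
          rw [← h.d2, ← h.s2]; ring
        have f5 : (σ - δ) * (δ * σ * p.2) = (σ - δ) * (u + ε) := by rw [hε]; ring
        rw [f4, f5] at f3
        linarith
      have e6 : (σ - δ) * ε ≤ δ * ε := mul_le_mul_of_nonneg_right (by linarith) g1.le
      have e7 : u + (n - δ * σ) * k < n * m := by
        have : δ * (u + (n - δ * σ) * k) < δ * (n * m) := by linarith
        exact lt_of_mul_lt_mul_left this (by linarith)
      have e8 : δ * σ * k ≤ u + ε := by
        have : δ * σ * k ≤ δ * σ * p.2 := mul_le_mul_of_nonneg_left (by linarith) hs.le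
        linarith
      refine ⟨?_, by linarith, by linarith⟩
      by_contra hcon
      have hmk : (m : ℝ) ≤ k := by exact_mod_cast not_lt.1 hcon
      have f1 : (n - δ * σ) * m ≤ (n - δ * σ) * k := mul_le_mul_of_nonneg_left hmk hns.le
      have f2 : u < δ * σ * m := by linarith
      -- `p₂ = k = m`, `b = 0`
      have f3 : δ * σ * (p.2 - m) < ε := by
        have : δ * σ * p.2 = u + ε := by rw [hε]; ring
        by_contra hcon2
        push Not at hcon2
        -- `s m ≤ u`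
        have : δ * σ * (p.2 - m) = u + ε - δ * σ * m := by
          rw [hε]; ring
        linarith
      -- multiply `f1` by `δ`
      have f4 : δ * (n * m) ≤ δ * (δ * σ * η) + (σ - δ) * ε - δ * u + δ * (δ * σ * m) := by
        have : δ * ((n - δ * σ) * m) ≤ δ * ((n - δ * σ) * k) :=
          mul_le_mul_of_nonneg_left f1 (by linarith)
        linarith
      have f5 : δ * (δ * σ * m) - δ * u ≤ δ * ε := by
        have f6 : δ * σ * m ≤ u + ε := by
          have : δ * σ * m ≤ δ * σ * k := mul_le_mul_of_nonneg_left hmk hs.le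
          linarith
        have := mul_le_mul_of_nonneg_left f6 (show 0 ≤ δ by linarith)
        linarith
      linarith

/-- **emptiness** -/
theorem emp_vv (h : Par M n c K δ σ) {m : ℕ} {T : Set (ℤ × ℤ)} (hT : Extra n m c δ σ η T)
    (hη : 0 ≤ η) (hm : δ * σ * η < n * m) :
    EmpG 0 (fun _ : Unit => n) (fun _ => m) (VV M n c δ σ η T) := by
  refine Pool.Agent.TH98.CF.EmpG_rows (Or.inl rfl) (fun m hm => hm.1) ?_
  rintro k ⟨a, g⟩ ⟨hg, hq⟩ ⟨a', g'⟩ ⟨hg', hq'⟩ hk hk'
  simp only at hg hg' hq hq' hk hk' ⊢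
  have hs := h.s0
  have hns := h.ns
  have hkR : (k : ℝ) ≤ g := by exact_mod_cast hk
  have hkR' : (k : ℝ) ≤ g' := by exact_mod_cast hk'
  have hn0 : (0 : ℝ) < n := by
    have h1 := h.d1
    have h2 := h.ds
    rw [← h.s2]; exact pow_pos (by linarith) 2
  obtain ⟨N, hN⟩ : ∃ N : ℝ, N = ((n * (m - k) : ℕ) : ℝ) := ⟨_, rfl⟩
  have hN1 : (n : ℝ) * (m - k) ≤ N := by
    rw [hN, Nat.cast_mul]
    refine mul_le_mul_of_nonneg_left ?_ (Nat.cast_nonneg _)
    have : ((m : ℤ) - k : ℤ) ≤ ((m - k : ℕ) : ℤ) := by omega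
    exact_mod_cast this
  have hcr : ∀ x y : ℤ, cr c δ σ η x - cr c δ σ η y = (x : ℝ) - y := by
    intro x y
    unfold cr
    ring
  have s1 : ∀ g : ℤ, (k : ℝ) ≤ g → δ * σ * k ≤ δ * σ * g := fun g hg =>
    mul_le_mul_of_nonneg_left hg hs.le
  have s2 : ∀ g : ℤ, (k : ℝ) ≤ g → (n - δ * σ) * k ≤ (n - δ * σ) * g := fun g hg =>
    mul_le_mul_of_nonneg_left hg hns.le
  have hmain : ((a' - a : ℤ) : ℝ) < N := by
    push_cast
    rw [← hcr]
    rcases hq' with ⟨c1, c2⟩ | ⟨p', hp', c1, c2⟩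
    · have t1 := s1 g' hkR'
      have t2 := s2 g' hkR'
      rcases hq with ⟨c3, c4⟩ | ⟨p, hp, c3, c4⟩
      · have t3 := s1 g hkR
        linarith
      · have t3 := ext_row h hT hη hm hp (k := k) (g := g) (by positivity) hk c4
        rw [← c3] at t3
        push_cast at t3
        linarith [t3.2.2]
    · have t3 := ext_row h hT hη hm hp' (k := k) (g := g') (by positivity) hk' c2
      rw [← c1] at t3
      push_cast at t3
      rcases hq with ⟨c3, c4⟩ | ⟨p, hp, c3, c4⟩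
      · have t4 := s1 g hkR
        linarith [t3.2.1]
      · rw [hcr]
        have t4 : ((a' - a : ℤ) : ℝ) < n := by
          rw [c1, c3]
          exact_mod_cast hT.dif _ hp' _ hp
        push_cast at t4
        have t5 : (1 : ℝ) ≤ ((m - k : ℕ) : ℝ) := by
          have : k < m := by exact_mod_cast t3.1
          have : 1 ≤ m - k := by omega
          exact_mod_cast this
        have t6 : (n : ℝ) * 1 ≤ N := by
          rw [hN, Nat.cast_mul]
          exact mul_le_mul_of_nonneg_left t5 hn0.le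
        linarith
  have h7 : ((a' - a : ℤ) : ℝ) < ((∑ i : Unit, ((n * (m - k) : ℕ) : ℤ) : ℤ) : ℝ) := by
    rw [Fintype.sum_unique]
    rw [hN] at hmain
    exact_mod_cast hmain
  exact_mod_cast h7

theorem of_sb {ι : Type} {r w : ι → ℕ} {S : Set (ℤ × ℤ)} (c : ℤ) (h : EmpG 0 r w (SB c S)) :
    EmpG 0 r w S := by
  refine h.shear c ?_
  rintro ⟨a, k⟩ hm
  show ((a + c * k - c * k, k) : ℤ × ℤ) ∈ S
  have e2 : a + c * k - c * k = a := by ring
  rw [e2]
  exact hm

/-- **emptiness for the block with additional exponents** -/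
theorem emp_one (h : Par M n c K δ σ) {m : ℕ} {T : Set (ℤ × ℤ)} (hT : Extra n m c δ σ η T)
    (hη : 0 ≤ η) (hm : δ * σ * η < n * m) :
    EmpG 0 (fun _ : Unit => n) (fun _ => m) (BB M K η ∪ T) := by
  apply of_sb c
  refine (emp_vv h hT hη hm).flat0 ?_
  intro a b t k h1 h2 hk hkt
  exact flat_vv h hT h1 h2 hk hkt

/-- the points of the rows -/
theorem exists_W1 (h : Par M n c K δ σ) {m : ℕ}
    (hm : n * ((m : ℝ) + 1) ≤ δ * σ * η + δ * σ) :
    ∃ W : Finset (ℤ × ℤ), W.card = ∑ k ∈ Finset.range m, n * (m - k) ∧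
      (∀ q ∈ W, q ∈ FlS (SB c (BB M K η))) ∧ (∀ q ∈ W, 0 ≤ q.2) ∧
      ∀ (k : ℕ), ∀ q ∈ W, ∀ q' ∈ W, (k : ℤ) ≤ q.2 → (k : ℤ) ≤ q'.2 →
        q'.1 - q.1 < ((n * (m - k) : ℕ) : ℤ) := by
  classical
  obtain ⟨A, hA⟩ : ∃ A : ℝ, A = (c - δ * σ) * η := ⟨_, rfl⟩
  obtain ⟨s, hs⟩ : ∃ s : ℝ, s = δ * σ := ⟨_, rfl⟩
  have hs0 : 0 < s := by rw [hs]; exact h.s0
  have hsM : 0 < s - M := by rw [hs]; exact h.sM
  have hns : 0 < n - s := by rw [hs]; exact h.ns
  have hsn : (s - M) * s = (n - s) * M := by rw [hs, ← h.d2, ← h.s2]; ring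
  have hM0 : (0 : ℝ) < M := by
    have := h.d1
    rw [← h.d2]; positivity
  refine ⟨((Finset.range m).sigma fun k => Finset.range (n * (m - k))).image (fg A s), ?_, ?_, ?_, ?_⟩
  · rw [Finset.card_image_of_injective _ (fg_inj A s), Finset.card_sigma]
    simp
  · intro q hq
    rw [Finset.mem_image] at hq
    obtain ⟨⟨l, i⟩, hil, rfl⟩ := hq
    rw [Finset.mem_sigma, Finset.mem_range, Finset.mem_range] at hil
    obtain ⟨hl, hi⟩ := hil
    simp only at hl hi
    obtain ⟨a, ha⟩ : ∃ a : ℤ, a = ⌈A + s * l⌉ + i := ⟨_, rfl⟩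
    have h1 : A + s * l ≤ (a : ℝ) := by
      rw [ha]
      push_cast
      have := Int.le_ceil (A + s * l)
      have : (0 : ℝ) ≤ i := Nat.cast_nonneg i
      linarith
    have h2 : (a : ℝ) < A + s * l + n * (m - l) := by
      rw [ha]
      have h3 := Int.ceil_lt_add_one (A + s * l)
      have h4 : (i : ℝ) + 1 ≤ ((n * (m - l) : ℕ) : ℝ) := by exact_mod_cast hi
      push_cast [Nat.cast_sub hl.le] at h4
      push_cast
      linarith
    obtain ⟨u, hu⟩ : ∃ u : ℝ, u = cr c δ σ η a := ⟨_, rfl⟩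
    have hua : u = a - A := by rw [hu, hA]; rfl
    obtain ⟨b, hb⟩ : ∃ b : ℤ, b = ⌊u / s⌋ - l := ⟨_, rfl⟩
    have hb0 : 0 ≤ b := by
      have : (l : ℤ) ≤ ⌊u / s⌋ := by
        apply Int.le_floor.2
        rw [le_div_iff₀ hs0]
        push_cast
        linarith
      omega
    have hb1 : s * (b + l) ≤ u := by
      have h3 := Int.floor_le (u / s)
      rw [le_div_iff₀ hs0] at h3
      have h4 : ((b : ℝ) + l) = (⌊u / s⌋ : ℤ) := by rw [hb]; push_cast; ring
      rw [h4]
      linarith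
    have hb2 : u < s * (b + l + 1) := by
      have h3 := Int.lt_floor_add_one (u / s)
      rw [div_lt_iff₀ hs0] at h3
      have h4 : ((b : ℝ) + l) = (⌊u / s⌋ : ℤ) := by rw [hb]; push_cast; ring
      rw [h4]
      linarith
    have hlR : (0 : ℝ) ≤ l := Nat.cast_nonneg l
    have hbR : (0 : ℝ) ≤ b := by exact_mod_cast hb0
    -- the right end
    have hr : u ≤ M * η + (s - M) * b := by
      have f1 : u ≤ s * η + s * (l + 1) - n * (l + 1) := by
        rw [← hs] at hm
        linarith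
      have f2 : (s - M) * u ≤ (s - M) * (s * (b + l + 1)) :=
        mul_le_mul_of_nonneg_left hb2.le hsM.le
      have f3 : M * u ≤ M * (s * η + s * (l + 1) - n * (l + 1)) :=
        mul_le_mul_of_nonneg_left f1 hM0.le
      have f4 : s * u ≤ s * (M * η + (s - M) * b) := by
        have f5 : s * (M * η + (s - M) * b) = (s - M) * (s * (b + l + 1)) +
            M * (s * η + s * (l + 1) - n * (l + 1)) +
            ((n - s) * M - (s - M) * s) * (l + 1) := by ring
        rw [f5, hsn, sub_self, zero_mul, add_zero]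
        linarith
      exact le_of_mul_le_mul_left f4 hs0
    have hfg : fg A s ⟨l, i⟩ = (a, (l : ℤ)) := by
      unfold fg
      rw [ha]
    rw [hfg]
    refine ⟨by simp, b, ?_, ?_⟩
    · show ((a - c * b, b) : ℤ × ℤ) ∈ BB M K η
      rw [bb_iff h]
      have e1 : ca c ((a - c * b, b) : ℤ × ℤ) = a := sb_ca c (a, b)
      rw [e1, ← hu, ← hs]
      refine ⟨hb0, ?_, ?_⟩
      · simp only
        have : 0 ≤ s * l := mul_nonneg hs0.le hlR
        linarith
      · simp only
        exact hr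
    · show ((a - c * (b + l), b + l) : ℤ × ℤ) ∈ BB M K η
      rw [bb_iff h]
      have e1 : ca c ((a - c * (b + l), b + l) : ℤ × ℤ) = a := sb_ca c (a, b + l)
      rw [e1, ← hu, ← hs]
      refine ⟨by simp only; omega, ?_, ?_⟩
      · simp only
        push_cast
        exact hb1
      · simp only
        push_cast
        have : 0 ≤ (s - M) * l := mul_nonneg hsM.le hlR
        linarith
  · intro q hq
    rw [Finset.mem_image] at hq
    obtain ⟨⟨l, i⟩, hil, rfl⟩ := hq
    simp [fg]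
  · intro k q hq q' hq' hk hk'
    rw [Finset.mem_image] at hq hq'
    obtain ⟨⟨l, i⟩, hil, rfl⟩ := hq
    obtain ⟨⟨l', i'⟩, hil', rfl⟩ := hq'
    rw [Finset.mem_sigma, Finset.mem_range, Finset.mem_range] at hil hil'
    simp only [fg] at hk hk' hil hil' ⊢
    have hkl : k ≤ l := by exact_mod_cast hk
    have hkl' : k ≤ l' := by exact_mod_cast hk'
    have hkR : (k : ℝ) ≤ l := by exact_mod_cast hkl
    have hkR' : (k : ℝ) ≤ l' := by exact_mod_cast hkl'
    have h1 : ⌈A + s * k⌉ ≤ ⌈A + s * l⌉ := by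
      apply Int.ceil_mono
      have : s * k ≤ s * l := mul_le_mul_of_nonneg_left hkR (by linarith)
      linarith
    have h2 : ⌈A + s * l'⌉ ≤ ⌈A + s * k⌉ + (((n * (m - k) : ℕ) : ℤ) - ((n * (m - l') : ℕ) : ℤ)) := by
      rw [Int.ceil_le]
      push_cast [Nat.cast_sub (hkl'.trans hil'.1.le), Nat.cast_sub hil'.1.le]
      have h3 := Int.le_ceil (A + s * k)
      have h4 : s * (l' - k) ≤ n * (l' - k) := mul_le_mul_of_nonneg_right (by linarith) (by linarith)
      linarith
    have h5 : (i' : ℤ) < ((n * (m - l') : ℕ) : ℤ) := by exact_mod_cast hil'.2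
    have h7 : (0 : ℤ) ≤ i := Int.natCast_nonneg i
    linarith

end

/-- several more exponents and simple points -/
theorem EmpG_union {r m v : ℕ} {S : Set (ℤ × ℤ)} (T : Finset (ℤ × ℤ))
    (h : EmpG 0 (fun o : Option (Fin v) => o.elim r fun _ => 1) (fun o => o.elim m fun _ => 1) S) :
    EmpG 0 (fun o : Option (Fin (v + T.card)) => o.elim r fun _ => 1)
      (fun o => o.elim m fun _ => 1) (S ∪ T) := by
  classical
  induction T using Finset.induction_on with
  | empty => simpa using h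
  | insert a s ha ih =>
    rw [Finset.card_insert_of_notMem ha, Finset.coe_insert, Set.union_insert, ← add_assoc]
    exact EmpG_insert a ih

section
variable {M n : ℕ} {c : ℤ} {K δ σ η : ℝ}

/-- **independence**: the emptiness with simple points for a region which contains the block -/
theorem ind_one (h : Par M n c K δ σ) {m N : ℕ} {S : Set (ℤ × ℤ)} (hS : S.Finite)
    (hBS : BB M K η ⊆ S) (hN : S.ncard ≤ N)
    (hm : n * ((m : ℝ) + 1) ≤ δ * σ * η + δ * σ) :
    n * (m + 1).choose 2 ≤ N ∧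
      EmpG 0 (fun o : Option (Fin (N - n * (m + 1).choose 2)) => o.elim n fun _ => 1)
        (fun o => o.elim m fun _ => 1) S := by
  classical
  obtain ⟨W, hW, hWS, hW0, hrow⟩ := exists_W1 h hm
  rw [sum_rows] at hW
  have hs := h.s0
  have hM := h.sM
  have hB : (BB M K η).Finite := hS.subset hBS
  have hinj : Set.InjOn (fun q : ℤ × ℤ => ((q.1 - c * q.2, q.2) : ℤ × ℤ)) (SB c (BB M K η)) := by
    rintro ⟨a, k⟩ _ ⟨a', k'⟩ _ he
    simp only [Prod.mk.injEq] at he
    obtain ⟨he, rfl⟩ := he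
    ext
    · simp only; linarith
    · rfl
  have hSB : (SB c (BB M K η)).Finite :=
    Set.Finite.of_injOn (f := fun q : ℤ × ℤ => ((q.1 - c * q.2, q.2) : ℤ × ℤ)) (fun q hq => hq) hinj hB
  have hSBc : (SB c (BB M K η)).ncard ≤ (BB M K η).ncard :=
    Set.ncard_le_ncard_of_injOn (fun q : ℤ × ℤ => ((q.1 - c * q.2, q.2) : ℤ × ℤ)) (fun q hq => hq)
      hinj hB
  have hconv : ∀ a b T k : ℤ, (a, b) ∈ SB c (BB M K η) → (a, b + T) ∈ SB c (BB M K η) → 0 ≤ k →
      k ≤ T → (a, b + k) ∈ SB c (BB M K η) := by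
    intro a b T k h1 h2 hk hkT
    have c1 : ca c ((a - c * b, b) : ℤ × ℤ) = a := sb_ca c (a, b)
    have c2 : ca c ((a - c * (b + T), b + T) : ℤ × ℤ) = a := sb_ca c (a, b + T)
    have c3 : ca c ((a - c * (b + k), b + k) : ℤ × ℤ) = a := sb_ca c (a, b + k)
    have g1 := (bb_iff h).1 h1
    have g2 := (bb_iff h).1 h2
    simp only at g1 g2
    rw [c1] at g1
    rw [c2] at g2
    obtain ⟨g1, g3, g4⟩ := g1
    obtain ⟨g5, g6, g7⟩ := g2
    push_cast at g6 g7
    show ((a - c * (b + k), b + k) : ℤ × ℤ) ∈ BB M K η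
    rw [bb_iff h, c3]
    have hkT' : (k : ℝ) ≤ T := by exact_mod_cast hkT
    have hk0 : (0 : ℝ) ≤ k := by exact_mod_cast hk
    refine ⟨by simp only; omega, ?_, ?_⟩
    · simp only
      push_cast
      have : δ * σ * k ≤ δ * σ * T := mul_le_mul_of_nonneg_left hkT' hs.le
      linarith
    · simp only
      push_cast
      have : 0 ≤ (δ * σ - M) * k := mul_nonneg hM.le hk0
      linarith
  obtain ⟨h3, h4⟩ := fl_card hSB (fun m hm => hm.1) hconv
  have hWle : W.card ≤ (FlS (SB c (BB M K η))).ncard := by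
    rw [← Set.ncard_coe_finset W]
    exact Set.ncard_le_ncard (fun q hq => hWS q hq) h3
  -- the difference
  have hD : (S \ BB M K η).Finite := hS.subset Set.sdiff_subset
  have hDc : (BB M K η).ncard + hD.toFinset.card = S.ncard := by
    rw [← Set.ncard_eq_toFinset_card _ hD, add_comm, Set.ncard_sdiff_add_ncard_of_subset hBS hS]
  have hE0 : EmpG 0 (fun o : Option (Fin (N - n * (m + 1).choose 2 - hD.toFinset.card)) =>
      o.elim n fun _ => 1) (fun o => o.elim m fun _ => 1) (BB M K η) := by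
    apply of_sb c
    have e1 := EmpG_add (v := N - n * (m + 1).choose 2 - hD.toFinset.card) (r := n) (m := m)
      (Or.inl rfl) h3 hWS (by omega) hW0 hrow
    refine e1.flat0 ?_
    intro a b T k h1 h2 hk hkT
    exact ⟨hk, b, h1, hconv a b T k h1 h2 hk hkT⟩
  have hE1 := EmpG_union hD.toFinset hE0
  rw [Set.Finite.coe_toFinset, Set.union_sdiff_self, Set.union_eq_self_of_subset_left hBS] at hE1
  refine ⟨by omega, ?_⟩
  have e2 : N - n * (m + 1).choose 2 - hD.toFinset.card + hD.toFinset.card =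
      N - n * (m + 1).choose 2 := by omega
  rw [e2] at hE1
  exact hE1

end

end Pool.Agent.L7h13.NQ
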