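import Pool.Agent.L7h13.NQ.Gen
import Pool.Agent.L7h13.NQ.Coll

/-!
# Project NQ, collisions: all numbers of points from seventeen on, one flattening
-/

set_option autoImplicit false

namespace Pool.Agent.L7h13.NQ

open Pool.Agent.TH603.EL Pool.Agent.TH716.CF Pool.Agent.TH518.CW Pool.Agent.L7h52.NQ
open Pool.Agent.H932R2 Pool.Agent.H932R3 Pool.Agent.TH545.CF

universe u

theorem tau_irr' {K : ℝ} (h : Irrational K) : Irrational ((24 - K) / 16) := by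
  have h1 : (24 - K) / 16 = (((24 : ℕ) : ℝ) - K) / ((16 : ℕ) : ℝ) := by norm_num
  rw [h1]
  exact (h.natCast_sub 24).div_natCast (by norm_num)

theorem bk_card4 {K : ℝ} (hi : Irrational K) (h1 : 16 < K) (h2 : K < 18) (d : ℕ) :
    (Bk 16 K d ∪ Tx d).Finite ∧ (Bk 16 K d ∪ Tx d).ncard ≤ (d + 2).choose 2 := by
  classical
  obtain ⟨A, hA, hAc⟩ := Pool.Agent.L7h23.NQ.exists_fin (tau_irr' hi) d
  have hsub : Bk 16 K d ∪ Tx d ⊆ ((A.image (cx d) : Finset (ℤ × ℤ)) : Set (ℤ × ℤ)) := by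
    intro p hp
    obtain ⟨m, hm, hmp⟩ := sub_e4 h1 h2 hp
    rw [Finset.mem_coe, Finset.mem_image]
    refine ⟨m, ?_, hmp⟩
    rw [← Finset.mem_coe, hA]
    exact hm
  refine ⟨(Finset.finite_toSet _).subset hsub, ?_⟩
  refine (Set.ncard_le_ncard hsub (Finset.finite_toSet _)).trans ?_
  rw [Set.ncard_coe_finset]
  exact Finset.card_image_le.trans hAc

theorem bk_eq (K : ℝ) (d : ℕ) : Bk 16 K d = BB 16 K ((2 * (d : ℝ) - 1) / 8) := rfl

/-- the parameters for the quartic -/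
theorem par4 {n : ℕ} (hn : 17 ≤ n) (hn2 : n ≤ 64) (hsq : ¬ IsSquare n) :
    Par 16 n ⌈4 * √(n : ℝ)⌉ (16 + ⌈4 * √(n : ℝ)⌉ - 4 * √(n : ℝ)) 4 (√(n : ℝ)) ∧
      Irrational (16 + ⌈4 * √(n : ℝ)⌉ - 4 * √(n : ℝ)) ∧
      (⌈4 * √(n : ℝ)⌉ : ℝ) < 4 * √(n : ℝ) + 1 ∧ 4 < √(n : ℝ) := by
  have hirr : Irrational (√(n : ℝ)) := irr_sqrt hsq
  have hirr4 : Irrational (4 * √(n : ℝ)) := by
    have := hirr.natCast_mul (m := 4) (by norm_num)
    push_cast at this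
    exact this
  have h4 : 4 < √(n : ℝ) := by
    rw [Real.lt_sqrt (by norm_num)]
    have : (17 : ℝ) ≤ n := by exact_mod_cast hn
    linarith
  have h8 : √(n : ℝ) ≤ 8 := by
    rw [Real.sqrt_le_left (by norm_num)]
    have : (n : ℝ) ≤ 64 := by exact_mod_cast hn2
    linarith
  have hs : √(n : ℝ) ^ 2 = n := Real.sq_sqrt (Nat.cast_nonneg n)
  have hc : 4 * √(n : ℝ) < ⌈4 * √(n : ℝ)⌉ :=
    lt_of_le_of_ne (Int.le_ceil _) fun h => Int.not_irrational _ (h ▸ hirr4)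
  have hc2 := Int.ceil_lt_add_one (4 * √(n : ℝ))
  refine ⟨⟨by norm_num, hs, by norm_num, h4, by linarith, by push_cast; ring, hc⟩, ?_, hc2, h4⟩
  have e1 : 16 + (⌈4 * √(n : ℝ)⌉ : ℝ) - 4 * √(n : ℝ) =
      ((16 + ⌈4 * √(n : ℝ)⌉ : ℤ) : ℝ) - 4 * √(n : ℝ) := by push_cast; ring
  rw [e1]
  exact hirr4.intCast_sub _

/-- the additional exponents -/
theorem extra4 {n m d : ℕ} {c : ℤ} {K σ : ℝ} (h : Par 16 n c K 4 σ) (hc : (c : ℝ) < 4 * σ + 1)
    (hc4 : d % 4 = 1 → (d : ℝ) < σ * m + 15 / 32)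
    (hc0 : d % 4 = 0 → (d : ℝ) ≤ σ * m + 7 / (8 * σ)) :
    Extra n m c 4 σ ((2 * (d : ℝ) - 1) / 8) (Tx d) := by
  have h4 := h.ds
  have hc1 := h.hc
  have hs2 := h.s2
  have hn : (0 : ℝ) < n := by rw [← hs2]; exact pow_pos (by linarith) 2
  refine ⟨fun p hp => hp.1, ?_, fun p hp p' hp' _ => tx_sub d hp hp', fun p hp p' hp' => ?_⟩
  · rintro ⟨x, j⟩ ⟨h1, ⟨h2, h3⟩ | ⟨h2, h3⟩⟩
    · simp only at h1 h2 h3
      right
      have hj : (d : ℝ) = 4 * j + 1 := by exact_mod_cast h3.symm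
      have hd := hc4 (by omega)
      have e1 : cr c 4 σ ((2 * (d : ℝ) - 1) / 8) (ca c ((x, j) : ℤ × ℤ)) =
          4 * σ * ((2 * (d : ℝ) - 1) / 8) - c / 8 := by
        unfold cr ca
        simp only
        rw [h2, hj]
        push_cast
        ring
      rw [e1]
      have e2 : (4 * σ * j - (4 * σ * ((2 * (d : ℝ) - 1) / 8) - c / 8)) = (c - 4 * σ) / 8 := by
        rw [hj]; ring
      simp only
      rw [e2]
      refine ⟨by linarith, by linarith, ?_⟩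
      rw [← hs2]
      have e3 : σ * ((c - 4 * σ) / 8) < σ * (1 / 8) := mul_lt_mul_of_pos_left (by linarith) (by linarith)
      have e4 : σ * (4 * (d : ℝ) - 2 + 1 / 8) < σ * (4 * (σ * m)) :=
        mul_lt_mul_of_pos_left (by linarith) (by linarith)
      linarith
    · simp only at h1 h2 h3
      left
      have hj : (d : ℝ) = 4 * j := by exact_mod_cast h3.symm
      have hd := hc0 (by omega)
      have e1 : cr c 4 σ ((2 * (d : ℝ) - 1) / 8) (ca c ((x, j) : ℤ × ℤ)) =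
          4 * σ * ((2 * (d : ℝ) - 1) / 8) + c / 8 - 1 := by
        unfold cr ca
        simp only
        rw [h2, hj]
        push_cast
        ring
      rw [e1]
      refine ⟨by linarith, ?_⟩
      rw [← hs2]
      have e3 : σ * (d : ℝ) ≤ σ * (σ * m + 7 / (8 * σ)) := mul_le_mul_of_nonneg_left hd (by linarith)
      have e4 : σ * (7 / (8 * σ)) = 7 / 8 := by
        have : σ ≠ 0 := by linarith
        field_simp
      have e5 : σ * (σ * m + 7 / (8 * σ)) = σ * (σ * m) + 7 / 8 := by rw [mul_add, e4]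
      rw [e5] at e3
      linarith
  · have : p = p' := tx_sub d hp hp'
    rw [this]
    have : 0 < n := by exact_mod_cast hn
    omega

/-- emptiness in degree `d` and below -/
theorem emp4_one (hTu : S_TUBE) (hΘ : S_THETA) (hAs : S_ASM) {n : ℕ} (hn : 17 ≤ n) (hn2 : n ≤ 64)
    (hsq : ¬ IsSquare n) {k : Type u} [Field k] [CharP k 0] {m d : ℕ} (hd : 1 ≤ d)
    (hc : (d % 4 = 2 ∨ d % 4 = 3) ∧ (d : ℝ) < √(n : ℝ) * m + 1 / 2 ∨
      d % 4 = 1 ∧ (d : ℝ) < √(n : ℝ) * m + 15 / 32 ∨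
      (d : ℝ) ≤ √(n : ℝ) * m + 7 / (8 * √(n : ℝ))) :
    ∃ F : MvPolynomial (Fin (n + 1)) k, F ≠ 0 ∧
      ∀ (c : k) (a : Fin n → k), MvPolynomial.eval (Fin.cons c a : Fin (n + 1) → k) F ≠ 0 →
        ∀ d' ≤ d, JetDim n m c a d' := by
  obtain ⟨hP, hirr, hc2, h4⟩ := par4 hn hn2 hsq
  obtain ⟨σ, hσ⟩ : ∃ σ : ℝ, σ = √(n : ℝ) := ⟨_, rfl⟩
  rw [← hσ] at hP hirr hc2 h4 hc
  obtain ⟨c, hcc⟩ : ∃ c : ℤ, c = ⌈4 * σ⌉ := ⟨_, rfl⟩
  rw [← hcc] at hP hirr hc2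
  obtain ⟨K, hK⟩ : ∃ K : ℝ, K = 16 + c - 4 * σ := ⟨_, rfl⟩
  rw [← hK] at hP hirr
  have hc1 := hP.hc
  have h7 : 7 / (8 * σ) < 15 / 32 := by
    rw [div_lt_div_iff₀ (by linarith) (by norm_num)]
    linarith
  have hdR : (1 : ℝ) ≤ d := by exact_mod_cast hd
  have hall : (d : ℝ) < σ * m + 1 / 2 := by
    rcases hc with hc | hc | hc
    · exact hc.2
    · linarith [hc.2]
    · linarith
  have hX : Extra n m c 4 σ ((2 * (d : ℝ) - 1) / 8) (Tx d) := by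
    refine extra4 hP hc2 (fun h1 => ?_) (fun h1 => ?_)
    · rcases hc with hc | hc | hc
      · omega
      · exact hc.2
      · linarith
    · rcases hc with hc | hc | hc
      · omega
      · omega
      · exact hc
  have hE : EmpG 0 (fun _ : Unit => n) (fun _ => m) (E4 ((24 - K) / 16) d) := by
    apply e4_of_bk (by linarith) (by linarith)
    rw [bk_eq]
    refine emp_one hP hX (by linarith) ?_
    rw [← hP.s2]
    have : σ * ((d : ℝ) - 1 / 2) < σ * (σ * m) := mul_lt_mul_of_pos_left (by linarith) (by linarith)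
    linarith
  obtain ⟨L, _, _, c0, a0, h0⟩ := key4_coll hTu hΘ hAs (by linarith) (by linarith) hE
  obtain ⟨F, hF, hF'⟩ := coll_transfer (L := k) 0 (r := n) (m := m) (c0 := c0) (a0 := a0)
    (d := d) (fun P hP hP' => h0 P hP hP')
  refine ⟨F, hF, fun c a hc d' hd' => ?_⟩
  exact jet_full ((hF' c a hc).mono hd').rk d' le_rfl

/-- independence in degree `d` and above -/
theorem ind4_one (hTu : S_TUBE) (hΘ : S_THETA) (hAs : S_ASM) {n : ℕ} (hn : 17 ≤ n) (hn2 : n ≤ 64)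
    (hsq : ¬ IsSquare n) {k : Type u} [Field k] [CharP k 0] {m d : ℕ}
    (hc : √(n : ℝ) * (m + 1) ≤ d + 7 / 2) :
    ∃ F : MvPolynomial (Fin (n + 1)) k, F ≠ 0 ∧
      ∀ (c : k) (a : Fin n → k), MvPolynomial.eval (Fin.cons c a : Fin (n + 1) → k) F ≠ 0 →
        ∀ d' ≥ d, JetDim n m c a d' := by
  obtain ⟨hP, hirr, hc2, h4⟩ := par4 hn hn2 hsq
  obtain ⟨σ, hσ⟩ : ∃ σ : ℝ, σ = √(n : ℝ) := ⟨_, rfl⟩
  rw [← hσ] at hP hirr hc2 h4 hc
  obtain ⟨c, hcc⟩ : ∃ c : ℤ, c = ⌈4 * σ⌉ := ⟨_, rfl⟩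
  rw [← hcc] at hP hirr hc2
  obtain ⟨K, hK⟩ : ∃ K : ℝ, K = 16 + c - 4 * σ := ⟨_, rfl⟩
  rw [← hK] at hP hirr
  have hc1 := hP.hc
  obtain ⟨hf, hcard⟩ := bk_card4 hirr (by linarith) (by linarith) d
  obtain ⟨hle, hE⟩ := ind_one hP (η := (2 * (d : ℝ) - 1) / 8) (m := m) (N := (d + 2).choose 2) hf
    (by rw [bk_eq]; exact Set.subset_union_left) hcard (by
      rw [← hP.s2]
      have : σ * (σ * (m + 1)) ≤ σ * (d + 7 / 2) := mul_le_mul_of_nonneg_left hc (by linarith)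
      linarith)
  exact ind4_of_emp hTu hΘ hAs (by linarith) (by linarith) hle
    (e4_of_bk (K := K) (by linarith) (by linarith) hE)

end Pool.Agent.L7h13.NQ
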