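import Pool.Agent.L7h13.NQ.Two
import Pool.Agent.L7h23.NQ.Sur

/-!
# Project NQ, collisions: the region of the quartic and the block

The containments are those of part ONE (helper23); the count of `E4` is in part SUR (helper23).
-/

set_option autoImplicit false

namespace Pool.Agent.L7h13.NQ

open Pool.Agent.TH603.EL Pool.Agent.TH716.CF Pool.Agent.TH518.CW Pool.Agent.L7h52.NQ
open Pool.Agent.N388.EFC

/-- the coordinates `(x, j)` -/
def cx (d : ℕ) (m : ℤ × ℤ) : ℤ × ℤ := (m.1 - 8 * m.2 + (2 * d - 1), m.2)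

theorem cx_inj (d : ℕ) : Function.Injective (cx d) := by
  rintro ⟨i, j⟩ ⟨i', j'⟩ h
  simp only [cx, Prod.mk.injEq] at h
  obtain ⟨h1, h2⟩ := h
  subst h2
  ext
  · simp only; omega
  · rfl

/-- one more point: in the column `0` if `d` is one modulo four, in the column `-1` if four
divides `d` -/
def Tx (d : ℕ) : Set (ℤ × ℤ) :=
  {p | 0 ≤ p.2 ∧ ((p.1 = 0 ∧ 4 * p.2 + 1 = d) ∨ (p.1 = -1 ∧ 4 * p.2 = d))}

theorem hrow {d : ℕ} (j : ℤ) (h1 : 0 ≤ j) (h2 : 4 * j ≤ d) :
    ∃ e : ℕ, (e : ℤ) = d - 4 * j ∧ d - 4 * j.toNat = e ∧ (e : ℝ) = d - 4 * j := by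
  refine ⟨d - 4 * j.toNat, by omega, rfl, ?_⟩
  have h3 : ((d - 4 * j.toNat : ℕ) : ℤ) = d - 4 * j := by omega
  exact_mod_cast h3

theorem hh2 (e : ℕ) (he : 2 ≤ e) : ((hh e : ℕ) : ℝ) = 4 * e - 2 := by
  have h1 : hh e = 4 * e - 2 := by
    unfold hh
    rw [if_neg (by omega), if_neg (by omega)]
  rw [h1, Nat.cast_sub (by omega)]
  push_cast
  ring

theorem hh1 : ((hh 1 : ℕ) : ℝ) = 3 := by
  unfold hh
  norm_num

theorem hh0 : ((hh 0 : ℕ) : ℝ) = 1 := by
  unfold hh
  norm_num

theorem e4_sub {K : ℝ} {d : ℕ} (hK1 : 16 < K) (hK2 : K < 18) {m : ℤ × ℤ}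
    (hm : m ∈ E4 ((24 - K) / 16) d) : cx d m ∈ Bk 16 K d ∪ Tx d := by
  obtain ⟨i, j⟩ := m
  obtain ⟨g1, g2, g3, g4⟩ := hm
  simp only at g1 g2 g3 g4
  obtain ⟨e, he1, he2, he3⟩ := hrow j g1 g2
  rw [he2] at g3 g4
  unfold cx
  simp only
  rcases Nat.lt_or_ge e 2 with h5 | h5
  · rcases Nat.lt_or_ge e 1 with h6 | h6
    · have h7 : e = 0 := by omega
      subst h7
      rw [hh0] at g3 g4
      have i1 : (-1 : ℝ) < i := by linarith
      have i2 : (i : ℝ) < 1 := by linarith
      have i3 : -1 < i := by exact_mod_cast i1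
      have i4 : i < 1 := by exact_mod_cast i2
      right
      refine ⟨by simp only; omega, Or.inr ⟨by simp only; push_cast at he1; omega,
        by simp only; push_cast at he1; omega⟩⟩
    · have h6 : e = 1 := by omega
      subst h6
      rw [hh1] at g3 g4
      push_cast at he3
      have i1 : (-2 : ℝ) < i := by linarith
      have i2 : (i : ℝ) < 2 := by linarith
      have i3 : -2 < i := by exact_mod_cast i1
      have i4 : i < 2 := by exact_mod_cast i2
      have hx : i - 8 * j + (2 * (d : ℤ) - 1) = i + 1 := by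
        push_cast at he1
        linarith
      have h8 : (2 * (d : ℝ) - 1) / 8 - j = 1 / 8 := by linarith
      rw [hx]
      rcases (by omega : i = -1 ∨ i = 0 ∨ i = 1) with h7 | h7 | h7
      · right
        refine ⟨by simp only; omega, Or.inl ⟨by simp only; omega,
          by simp only; push_cast at he1; omega⟩⟩
      · left
        refine ⟨by simp only; omega, ?_, ?_⟩
        · simp only
          rw [h7]
          push_cast
          rw [h8]
          linarith
        · simp only
          rw [h7]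
          push_cast
          rw [h8]
          linarith
      · left
        refine ⟨by simp only; omega, ?_, ?_⟩
        · simp only
          rw [h7]
          push_cast
          rw [h8]
          linarith
        · simp only
          rw [h7]
          push_cast
          rw [h8]
          linarith
  · left
    rw [hh2 e h5] at g3 g4
    refine ⟨by simp only; omega, ?_, ?_⟩
    · simp only
      push_cast
      rw [he3] at g3
      linarith
    · simp only
      push_cast
      rw [he3] at g4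
      linarith

theorem sub_e4 {K : ℝ} {d : ℕ} (hK1 : 16 < K) (hK2 : K < 18) {p : ℤ × ℤ}
    (hp : p ∈ Bk 16 K d ∪ Tx d) : ∃ m ∈ E4 ((24 - K) / 16) d, cx d m = p := by
  obtain ⟨x, j⟩ := p
  rcases hp with hp | hp
  · have hb := bk_pos hK1 hp
    obtain ⟨g1, g2, g3⟩ := hp
    simp only at g1 g2 g3
    have hη := hb.2.le
    have hj : 4 * j + 1 ≤ d := by
      have h1 : 8 * (j : ℝ) ≤ 2 * d - 1 := by linarith
      have h2 : 8 * j ≤ 2 * (d : ℤ) - 1 := by exact_mod_cast h1
      omega
    obtain ⟨e, he1, he2, he3⟩ := hrow (d := d) j g1 (by omega)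
    refine ⟨(x - (2 * d - 1) + 8 * j, j), ⟨g1, by simp only; omega, ?_, ?_⟩, ?_⟩
    · simp only
      rw [he2]
      rcases Nat.lt_or_ge e 2 with h5 | h5
      · have h6 : e = 1 := by omega
        subst h6
        rw [hh1]
        push_cast at he3 ⊢
        have x3 : (1 : ℝ) ≤ x := by exact_mod_cast hb.1
        linarith
      · rw [hh2 e h5, he3]
        push_cast at g2 ⊢
        linarith
    · simp only
      rw [he2]
      rcases Nat.lt_or_ge e 2 with h5 | h5
      · have h6 : e = 1 := by omega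
        subst h6
        rw [hh1]
        push_cast at he3 ⊢
        have x1 : (x : ℝ) < 3 := by nlinarith
        have x2 : x < 3 := by exact_mod_cast x1
        have x3 : (x : ℝ) ≤ 2 := by
          have : x ≤ 2 := by omega
          exact_mod_cast this
        linarith
      · rw [hh2 e h5, he3]
        push_cast
        linarith
    · unfold cx
      ext
      · simp only; ring
      · rfl
  · obtain ⟨g1, ⟨g2, g3⟩ | ⟨g2, g3⟩⟩ := hp
    · simp only at g1 g2 g3
      obtain ⟨e, he1, he2, he3⟩ := hrow (d := d) j g1 (by omega)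
      have h6 : e = 1 := by omega
      subst h6
      refine ⟨(-1, j), ⟨g1, by simp only; omega, ?_, ?_⟩, ?_⟩
      · simp only
        rw [he2, hh1]
        push_cast
        linarith
      · simp only
        rw [he2, hh1]
        push_cast
        linarith
      · unfold cx
        ext
        · simp only; omega
        · rfl
    · simp only at g1 g2 g3
      obtain ⟨e, he1, he2, he3⟩ := hrow (d := d) j g1 (by omega)
      have h6 : e = 0 := by omega
      subst h6
      refine ⟨(0, j), ⟨g1, by simp only; omega, ?_, ?_⟩, ?_⟩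
      · simp only
        rw [he2, hh0]
        push_cast
        linarith
      · simp only
        rw [he2, hh0]
        push_cast
        linarith
      · unfold cx
        ext
        · simp only; omega
        · rfl

/-- from the block with the extra point to the region of the quartic -/
theorem e4_of_bk {ι : Type} {r w : ι → ℕ} {K : ℝ} {d : ℕ} (hK1 : 16 < K) (hK2 : K < 18)
    (h : EmpG 0 r w (Bk 16 K d ∪ Tx d)) : EmpG 0 r w (E4 ((24 - K) / 16) d) := by
  have e1 : EmpG 0 r w {m : ℤ × ℤ | ((2 * (d : ℤ) - 1, 0) : ℤ × ℤ) + m ∈ Bk 16 K d ∪ Tx d} :=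
    EmpG_shift ((2 * (d : ℤ) - 1, 0) : ℤ × ℤ) h (fun m hm => hm)
  refine e1.shear (-8) ?_
  intro m hm
  have h2 := e4_sub hK1 hK2 hm
  show ((2 * (d : ℤ) - 1, 0) : ℤ × ℤ) + (m.1 + -8 * m.2, m.2) ∈ Bk 16 K d ∪ Tx d
  have h3 : ((2 * (d : ℤ) - 1, 0) : ℤ × ℤ) + (m.1 + -8 * m.2, m.2) = cx d m := by
    unfold cx
    ext
    · simp only [Prod.fst_add]; ring
    · simp only [Prod.snd_add]; ring
  rw [h3]
  exact h2

theorem tx_sub (d : ℕ) : (Tx d).Subsingleton := by
  rintro ⟨x, j⟩ ⟨_, h2⟩ ⟨x', j'⟩ ⟨_, h4⟩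
  simp only at h2 h4
  ext
  · simp only; omega
  · simp only; omega

section
variable {q v n : ℕ} {K σ : ℝ}

theorem tau_irr (h : Num4 q v n K σ) : Irrational ((24 - K) / 16) := by
  have h1 : (24 - K) / 16 = (((24 : ℕ) : ℝ) - K) / ((16 : ℕ) : ℝ) := by norm_num
  rw [h1]
  exact (h.irr.natCast_sub 24).div_natCast (by norm_num)

/-- the number of the points of the block and of the extra point -/
theorem bk_card (h : Num4 q v n K σ) (d : ℕ) :
    (Bk 16 K d ∪ Tx d).Finite ∧ (Bk 16 K d ∪ Tx d).ncard ≤ (d + 2).choose 2 := by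
  classical
  obtain ⟨A, hA, hAc⟩ := Pool.Agent.L7h23.NQ.exists_fin (tau_irr h) d
  have hsub : Bk 16 K d ∪ Tx d ⊆ ((A.image (cx d) : Finset (ℤ × ℤ)) : Set (ℤ × ℤ)) := by
    intro p hp
    obtain ⟨m, hm, hmp⟩ := sub_e4 h.hK h.hK2 hp
    rw [Finset.mem_coe, Finset.mem_image]
    refine ⟨m, ?_, hmp⟩
    rw [← Finset.mem_coe, hA]
    exact hm
  refine ⟨(Finset.finite_toSet _).subset hsub, ?_⟩
  refine (Set.ncard_le_ncard hsub (Finset.finite_toSet _)).trans ?_
  rw [Set.ncard_coe_finset]
  exact Finset.card_image_le.trans hAc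

/-- the number of the points of the block -/
theorem bk_card' (h : Num4 q v n K σ) (d : ℕ) :
    (Bk 16 K d).Finite ∧ (Bk 16 K d).ncard + (Tx d).ncard ≤ (d + 2).choose 2 := by
  obtain ⟨h1, h2⟩ := bk_card h d
  have hf1 : (Bk 16 K d).Finite := h1.subset Set.subset_union_left
  have hf2 : (Tx d).Finite := h1.subset Set.subset_union_right
  refine ⟨hf1, ?_⟩
  rw [← Set.ncard_union_eq ?_ hf1 hf2]
  · exact h2
  · rw [Set.disjoint_left]
    rintro ⟨x, j⟩ h3 ⟨_, h4⟩
    have := (bk_pos h.hK h3).1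
    simp only at h4
    omega

theorem h4_card (h : Num4 q v n K σ) (d : ℕ) (x0 : ℤ) :
    (FlS (H4 q v K (A4 K d) False x0)).Finite ∧
      (FlS (H4 q v K (A4 K d) False x0)).ncard + (Tx d).ncard ≤ (d + 2).choose 2 := by
  obtain ⟨h1, h2⟩ := bk_card' h d
  -- the flattened block
  have hconv : ∀ a b T k : ℤ, (a, b) ∈ Bk 16 K d → (a, b + T) ∈ Bk 16 K d → 0 ≤ k → k ≤ T →
      (a, b + k) ∈ Bk 16 K d := by
    intro a b T k g1 g2 hk hkT
    obtain ⟨g1, g2', g3⟩ := g1
    obtain ⟨g4, g5, g6⟩ := g2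
    simp only at g1 g2' g3 g4 g5 g6
    push_cast at g2' g5 g6
    have hK := h.hK
    have hkT' : (k : ℝ) ≤ T := by exact_mod_cast hkT
    have hk0 : (0 : ℝ) ≤ k := by exact_mod_cast hk
    refine ⟨by simp only; omega, ?_, ?_⟩
    · simp only
      push_cast
      have : 0 ≤ (K - 16) * k := mul_nonneg (by linarith) hk0
      linarith
    · simp only
      push_cast
      have : 0 ≤ K * ((T : ℝ) - k) := mul_nonneg (by linarith) (by linarith)
      linarith
  obtain ⟨h3, h4⟩ := fl_card h1 (fun m hm => hm.1) hconv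
  have hmaps : ∀ m ∈ H4 q v K (A4 K d) False x0,
      ((m.1 + v * m.2, m.2) : ℤ × ℤ) ∈ FlS (Bk 16 K d) := by
    rintro ⟨a, k⟩ ⟨hk, hm | ⟨hm, _, _⟩⟩
    · exact bk_fl h hk hm.1 hm.2.1 hm.2.2
    · exact absurd hm id
  have hinj : Set.InjOn (fun m : ℤ × ℤ => ((m.1 + v * m.2, m.2) : ℤ × ℤ))
      (H4 q v K (A4 K d) False x0) := by
    rintro ⟨a, k⟩ _ ⟨a', k'⟩ _ he
    simp only [Prod.mk.injEq] at he
    obtain ⟨he, rfl⟩ := he
    ext
    · simp only; omega
    · rfl
  have hfin : (H4 q v K (A4 K d) False x0).Finite := Set.Finite.of_injOn hmaps hinj h3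
  have hcard := Set.ncard_le_ncard_of_injOn _ hmaps hinj h3
  obtain ⟨h5, h6⟩ := fl_card hfin (fun m hm => hm.1) (fun a b T k => h4_conv h a b T k)
  exact ⟨h5, by omega⟩

/-- the chain of the two flattenings, with the extra point -/
theorem chain4 (h : Num4 q v n K σ) {ι : Type} {r w : ι → ℕ} {d : ℕ} {P : Prop} {x0 : ℤ}
    (hx0 : x0 ≤ 0) (hT1 : ∀ m ∈ Tx d, m.1 = x0) (hT3 : (Tx d).Nonempty → P)
    (hA : P → (x0 : ℝ) ≤ A4 K d)
    (hE : EmpG 0 r w (U4 q v K (A4 K d) P x0)) : EmpG 0 r w (E4 ((24 - K) / 16) d) := by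
  apply e4_of_bk h.hK h.hK2
  have e1 : EmpG 0 r w (H4 q v K (A4 K d) P x0) := by
    refine hE.flat0 ?_
    intro a b T k h1 h2 hk hkT
    exact h4_row h hA h1 h2 hk hkT
  have e2 : EmpG 0 r w (G4 q K (A4 K d) P x0) := by
    refine e1.shear (-(v : ℤ)) ?_
    rintro ⟨a, k⟩ hm
    show ((a + -(v : ℤ) * k + v * k, k) : ℤ × ℤ) ∈ G4 q K (A4 K d) P x0
    have e2 : a + -(v : ℤ) * k + v * k = a := by ring
    rw [e2]
    exact hm
  refine e2.flat0 ?_
  intro a b T k h1 h2 hk hkT
  exact fl_ext h hx0 hT1 (tx_sub d) hT3 h1 h2 hk hkT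

/-- the chain for the block -/
theorem chain4_bk (h : Num4 q v n K σ) {ι : Type} {r w : ι → ℕ} {d : ℕ} {x0 : ℤ}
    (hE : EmpG 0 r w (FlS (H4 q v K (A4 K d) False x0))) : EmpG 0 r w (Bk 16 K d) := by
  have e1 : EmpG 0 r w (H4 q v K (A4 K d) False x0) := by
    refine hE.flat0 ?_
    intro a b T k h1 h2 hk hkT
    exact ⟨hk, b, h1, h4_conv h a b T k h1 h2 hk hkT⟩
  have e2 : EmpG 0 r w (G4 q K (A4 K d) False x0) := by
    refine e1.shear (-(v : ℤ)) ?_
    rintro ⟨a, k⟩ hm
    show ((a + -(v : ℤ) * k + v * k, k) : ℤ × ℤ) ∈ G4 q K (A4 K d) False x0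
    have e2 : a + -(v : ℤ) * k + v * k = a := by ring
    rw [e2]
    exact hm
  refine e2.flat0 ?_
  intro a b T k h1 h2 hk hkT
  obtain ⟨h3, h4, h5⟩ := fl_bk h h1 h2 hk hkT
  exact ⟨hk, Or.inl ⟨h3, h4, h5⟩⟩

end

/-- one more exponent and one more simple point -/
theorem EmpG_insert {r m v : ℕ} {S : Set (ℤ × ℤ)} (pt : ℤ × ℤ)
    (h : EmpG 0 (fun o : Option (Fin v) => o.elim r fun _ => 1) (fun o => o.elim m fun _ => 1) S) :
    EmpG 0 (fun o : Option (Fin (v + 1)) => o.elim r fun _ => 1)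
      (fun o => o.elim m fun _ => 1) (insert pt S) := by
  classical
  obtain ⟨K, _, _, φ, hφ, hE⟩ := h
  have hchar : CharZero K := CharP.charP_to_charZero K
  let U : Submodule K (Lau K) :=
    { carrier := {f | (∀ q, f.coeff q ≠ 0 → q ∈ insert pt S) ∧
        ∀ o : Option (Fin v), f ∈ J (φ o) (o.elim r fun _ => 1) ^ (o.elim m fun _ => 1 : ℕ)}
      add_mem' := by
        rintro f g ⟨h1, h2⟩ ⟨h3, h4⟩
        refine ⟨fun q hq => ?_, fun o => Ideal.add_mem _ (h2 o) (h4 o)⟩
        by_contra hqS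
        apply hq
        rw [AddMonoidAlgebra.coeff_add, Finsupp.add_apply]
        have e1 : f.coeff q = 0 := by by_contra h; exact hqS (h1 q h)
        have e2 : g.coeff q = 0 := by by_contra h; exact hqS (h3 q h)
        rw [e1, e2, add_zero]
      zero_mem' := ⟨fun q hq => absurd rfl hq, fun o => Ideal.zero_mem _⟩
      smul_mem' := by
        rintro c f ⟨h1, h2⟩
        refine ⟨fun q hq => ?_, fun o => ?_⟩
        · apply h1
          intro h3
          apply hq
          rw [AddMonoidAlgebra.coeff_smul, Finsupp.smul_apply, h3, smul_zero]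
        · rw [smul_eq]
          exact Ideal.mul_mem_left _ _ (h2 o) }
  let R : U →ₗ[K] (Fin 1 → K) :=
    { toFun := fun f _ => (f : Lau K).coeff pt
      map_add' := fun f g => by
        funext q
        show ((f : Lau K) + g).coeff pt = _
        rw [AddMonoidAlgebra.coeff_add, Finsupp.add_apply]
        rfl
      map_smul' := fun c f => by
        funext q
        show (c • (f : Lau K)).coeff pt = _
        rw [AddMonoidAlgebra.coeff_smul, Finsupp.smul_apply]
        rfl }
  have hRinj : Function.Injective R := by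
    rw [← LinearMap.ker_eq_bot, LinearMap.ker_eq_bot']
    rintro ⟨f, hf1, hf2⟩ h
    apply Subtype.ext
    show f = 0
    refine hE f (fun q hq => ?_) hf2
    rcases hf1 q hq with h1 | h1
    · exfalso
      apply hq
      rw [h1]
      exact congrFun h 0
    · exact h1
  have hUfd : FiniteDimensional K U := FiniteDimensional.of_injective R hRinj
  have hUr : Module.finrank K U ≤ 1 := by
    have h1 := LinearMap.finrank_le_finrank_of_injective hRinj
    rw [Module.finrank_fintype_fun_eq_card, Fintype.card_fin] at h1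
    exact h1
  obtain ⟨ψ, hψ, hψ'⟩ := exists_points 1 U hUfd hUr
  refine ⟨K, inferInstance, inferInstance,
    fun o => o.elim (φ none)
      (Fin.cons (ψ 0) (fun j => φ (some j)) : Fin (v + 1) → (Lau K →+* PowerSeries K)), ?_, ?_⟩
  · rintro (_ | i)
    · exact hφ none
    · refine Fin.cases ?_ ?_ i
      · exact hψ 0
      · intro j
        exact hφ (some j)
  · intro f h1 h2
    refine hψ' f ⟨h1, ?_⟩ fun i => ?_
    · rintro (_ | j)
      · exact h2 none
      · exact h2 (some j.succ)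
    · have h3 := h2 (some 0)
      simp only [Option.elim_some, pow_one] at h3
      have hi : i = 0 := Subsingleton.elim _ _
      rw [hi]
      exact mem_J.1 h3 0 (by norm_num)

end Pool.Agent.L7h13.NQ
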