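import Pool.Agent.L7h52.NQ.Stm
import Pool.Agent.TH518.CW.Cnt
import Pool.Agent.TH518.CW.Ker
import Pool.Agent.TH98.CF.Final
import Pool.Agent.N388.EFC.Mon

/-!
# Project NQ, collisions: the two flattenings of the exponents of the nodal quartic

Eighteen and twenty points. The analogue of `TH518.CW.Two`, `TwoA`, `TwoB` (eleven and thirteen points
with the nodal cubic).
-/

set_option autoImplicit false

namespace Pool.Agent.L7h13.NQ

open Pool.Agent.TH603.EL Pool.Agent.TH716.CF Pool.Agent.TH518.CW Pool.Agent.L7h52.NQ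
open Pool.Agent.N388.EFC

/-- the parameters -/
structure Num4 (q v n : ℕ) (K σ : ℝ) : Prop where
  hK : 16 < K
  hK2 : K < 18
  q1 : 1 ≤ q
  v1 : 1 ≤ v
  hqv : q * v = 2
  eq1 : (q : ℝ) * (K * (K - 16)) = 16
  eq2 : (q : ℝ) * (K + v) ^ 2 = n * (q * (K + v) - 1)
  irr : Irrational K
  sg : σ ^ 2 = n
  s4 : 4 < σ
  kk : K = 8 + 2 * σ
  vv : 2 * (v : ℝ) = n - 16

/-- the set after the first flattening -/
def G4 (q : ℕ) (K A : ℝ) (P : Prop) (x0 : ℤ) : Set (ℤ × ℤ) :=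
  {m | 0 ≤ m.2 ∧ ((1 ≤ m.1 ∧ m.2 + 1 ≤ q * m.1 ∧ (m.1 : ℝ) + K * m.2 ≤ A) ∨
    (P ∧ m.1 = x0 ∧ m.2 = 0))}

/-- the sheared set -/
def H4 (q v : ℕ) (K A : ℝ) (P : Prop) (x0 : ℤ) : Set (ℤ × ℤ) :=
  {m | ((m.1 + v * m.2, m.2) : ℤ × ℤ) ∈ G4 q K A P x0}

/-- right end of a row -/
noncomputable def y4 (v : ℕ) (K A : ℝ) (l : ℝ) : ℝ := A - (K + v) * l

/-- left end of a row -/
noncomputable def z4 (q v : ℕ) (K A : ℝ) (l : ℝ) : ℝ :=
  (y4 v K A l - (K + v)) / (q * (K + v) - 1)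

/-- the height of the apex -/
noncomputable def A4 (K : ℝ) (d : ℕ) : ℝ := K * ((2 * d - 1) / 8)

theorem bk_pos {K : ℝ} (hK : 16 < K) {d : ℕ} {t j : ℤ} (h : ((t, j) : ℤ × ℤ) ∈ Bk 16 K d) :
    1 ≤ t ∧ 0 < (2 * (d : ℝ) - 1) / 8 - j := by
  obtain ⟨g1, g2, g3⟩ := h
  simp only at g1 g2 g3
  push_cast at g2
  obtain ⟨u, hu⟩ : ∃ u : ℝ, u = (2 * (d : ℝ) - 1) / 8 - j := ⟨_, rfl⟩
  rw [← hu] at g2 g3 ⊢
  have hu0 : 0 ≤ u := by nlinarith
  have hu1 : u ≠ 0 := by
    intro h0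
    have h1 : ((2 * d - 1 - 8 * j : ℤ) : ℝ) = 0 := by
      push_cast
      rw [h0] at hu
      linarith
    have h2 : 2 * (d : ℤ) - 1 - 8 * j = 0 := by exact_mod_cast h1
    omega
  have hu2 : 0 < u := lt_of_le_of_ne hu0 (Ne.symm hu1)
  refine ⟨?_, hu2⟩
  have h3 : (0 : ℝ) < t := by nlinarith
  have h4 : 0 < t := by exact_mod_cast h3
  omega

section
variable {q v n : ℕ} {K σ : ℝ}

theorem Num4.den (h : Num4 q v n K σ) : 0 < (q : ℝ) * (K + v) - 1 := by
  have h1 := h.hK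
  have h2 : (1 : ℝ) ≤ q := by exact_mod_cast h.q1
  have h3 : (0 : ℝ) ≤ v := Nat.cast_nonneg v
  nlinarith

theorem Num4.q0 (h : Num4 q v n K σ) : (0 : ℝ) < q := by
  have h2 : (1 : ℝ) ≤ q := by exact_mod_cast h.q1
  linarith

/-- the columns of the block -/
theorem fl_bk (h : Num4 q v n K σ) {d : ℕ} {a b T k : ℤ} (h1 : ((a, b) : ℤ × ℤ) ∈ Bk 16 K d)
    (h2 : ((a, b + T) : ℤ × ℤ) ∈ Bk 16 K d) (_hk : 0 ≤ k) (hkT : k ≤ T) :
    1 ≤ a ∧ k + 1 ≤ q * a ∧ (a : ℝ) + K * k ≤ A4 K d := by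
  have hp := (bk_pos h.hK h1).1
  obtain ⟨g1, g2, g3⟩ := h1
  obtain ⟨g4, g5, g6⟩ := h2
  simp only at g1 g2 g3 g4 g5 g6
  push_cast at g2 g5 g6
  have hK := h.hK
  have hq0 := h.q0
  obtain ⟨u, hu⟩ : ∃ u : ℝ, u = (2 * (d : ℝ) - 1) / 8 - b := ⟨_, rfl⟩
  have hkT' : (k : ℝ) ≤ T := by exact_mod_cast hkT
  have hbR : (0 : ℝ) ≤ b := by exact_mod_cast g1
  have e1 : (K - 16) * u ≤ a := by rw [hu]; exact g2
  have e2 : (a : ℝ) ≤ K * (u - k) := by
    have e3 : K * ((2 * (d : ℝ) - 1) / 8 - (b + T)) = K * (u - k) - K * (T - k) := by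
      rw [hu]; ring
    have e4 : 0 ≤ K * ((T : ℝ) - k) := mul_nonneg (by linarith) (by linarith)
    linarith
  have f1 : 16 * u ≤ q * K * a := by
    have f2 : q * K * ((K - 16) * u) ≤ q * K * a := mul_le_mul_of_nonneg_left e1 (by positivity)
    have f3 : q * K * ((K - 16) * u) = 16 * u := by
      calc q * K * ((K - 16) * u) = (q * (K * (K - 16))) * u := by ring
        _ = 16 * u := by rw [h.eq1]
    linarith
  have f4 : q * (K - 16) * a ≤ 16 * (u - k) := by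
    have f2 : q * (K - 16) * a ≤ q * (K - 16) * (K * (u - k)) :=
      mul_le_mul_of_nonneg_left e2 (mul_nonneg hq0.le (by linarith))
    have f3 : q * (K - 16) * (K * (u - k)) = 16 * (u - k) := by
      calc q * (K - 16) * (K * (u - k)) = (q * (K * (K - 16))) * (u - k) := by ring
        _ = 16 * (u - k) := by rw [h.eq1]
    linarith
  have f5 : (k : ℝ) ≤ q * a := by
    have : q * K * (a : ℝ) - q * (K - 16) * a = 16 * (q * a) := by ring
    linarith
  refine ⟨hp, ?_, ?_⟩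
  · have h5 : k ≤ q * a := by exact_mod_cast f5
    by_contra hcon
    have h6 : k = q * a := by omega
    have h7 : (k : ℝ) = q * a := by exact_mod_cast h6
    have h8 : q * K * (a : ℝ) = 16 * u := by
      have : q * K * (a : ℝ) - q * (K - 16) * a = 16 * (q * a) := by ring
      linarith
    have h9 : ((q * a : ℤ) : ℝ) * K = ((2 * (2 * d - 1) - 16 * b : ℤ) : ℝ) := by
      rw [hu] at h8
      push_cast
      linarith
    have hqa : (q * a : ℤ) ≠ 0 := by
      have : (0 : ℤ) < q := by exact_mod_cast hq0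
      exact mul_ne_zero this.ne' (by omega)
    have h10 := (h.irr.intCast_mul hqa)
    rw [h9] at h10
    exact Int.not_irrational _ h10
  · unfold A4
    have e5 : K * (u - k) = K * ((2 * d - 1) / 8) - K * b - K * k := by rw [hu]; ring
    have : K * b ≥ 0 := by positivity
    linarith

/-- the points of the first flattening -/
theorem bk_fl (h : Num4 q v n K σ) {d : ℕ} {t k : ℤ} (hk : 0 ≤ k) (h1 : 1 ≤ t)
    (h2 : k + 1 ≤ q * t) (h3 : (t : ℝ) + K * k ≤ A4 K d) :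
    ((t, k) : ℤ × ℤ) ∈ FlS (Bk 16 K d) := by
  have hK := h.hK
  have hq0 := h.q0
  have hkR : (0 : ℝ) ≤ k := by exact_mod_cast hk
  have h2R : (k : ℝ) + 1 ≤ q * t := by exact_mod_cast h2
  have h1R : (1 : ℝ) ≤ t := by exact_mod_cast h1
  unfold A4 at h3
  obtain ⟨η, hη⟩ : ∃ η : ℝ, η = (2 * (d : ℝ) - 1) / 8 := ⟨_, rfl⟩
  rw [← hη] at h3
  have e0 : (t : ℝ) / K + k ≤ η := by
    have h7 : (t : ℝ) / K + k = (t + K * k) / K := by field_simp
    rw [h7, div_le_iff₀ (by linarith)]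
    linarith
  obtain ⟨b, hb⟩ : ∃ b : ℤ, b = ⌊η - t / K - k⌋ := ⟨_, rfl⟩
  have hb0 : 0 ≤ b := by
    rw [hb]
    apply Int.floor_nonneg.2
    linarith
  have hb1 : (b : ℝ) ≤ η - t / K - k := by rw [hb]; exact Int.floor_le _
  have hb2 : η - t / K - k < b + 1 := by rw [hb]; exact Int.lt_floor_add_one _
  have e1 : K * ((t : ℝ) / K) = t := by field_simp
  have e2 : (K - 16) * ((t : ℝ) / K + q * t) = t := by
    have e3 : (K - 16) * ((t : ℝ) / K + q * t) * K = t * K := by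
      calc (K - 16) * ((t : ℝ) / K + q * t) * K = (K - 16) * (K * (t / K)) +
            t * (q * (K * (K - 16))) := by ring
        _ = t * K := by rw [e1, h.eq1]; ring
    exact mul_right_cancel₀ (by linarith : K ≠ 0) e3
  have e4 : (K - 16) * (η - b) ≤ t := by
    rw [← e2]
    exact mul_le_mul_of_nonneg_left (by linarith) (by linarith)
  have e5 : (t : ℝ) ≤ K * (η - b - k) := by
    rw [← e1]
    exact mul_le_mul_of_nonneg_left (by linarith) (by linarith)
  have e6 : (0 : ℝ) ≤ K * k := by positivity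
  have e7 : (0 : ℝ) ≤ (K - 16) * k := mul_nonneg (by linarith) hkR
  refine ⟨hk, b, ⟨hb0, ?_, ?_⟩, ⟨by simp only; omega, ?_, ?_⟩⟩
  · simp only
    push_cast
    rw [← hη]
    exact e4
  · simp only
    rw [← hη]
    have : K * (η - b - k) = K * (η - b) - K * k := by ring
    linarith
  · simp only
    push_cast
    rw [← hη]
    have : (K - 16) * (η - (b + k)) = (K - 16) * (η - b) - (K - 16) * k := by ring
    linarith
  · simp only
    push_cast
    rw [← hη]
    have : K * (η - (b + k)) = K * (η - b - k) := by ring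
    linarith

/-- the first flattening, with one more point in the column `x0 ≤ 0` -/
theorem fl_ext (h : Num4 q v n K σ) {d : ℕ} {T : Set (ℤ × ℤ)} {P : Prop} {x0 : ℤ} (hx0 : x0 ≤ 0)
    (hT1 : ∀ m ∈ T, m.1 = x0) (hT2 : T.Subsingleton) (hT3 : T.Nonempty → P) {a b t k : ℤ}
    (h1 : ((a, b) : ℤ × ℤ) ∈ Bk 16 K d ∪ T) (h2 : ((a, b + t) : ℤ × ℤ) ∈ Bk 16 K d ∪ T)
    (hk : 0 ≤ k) (hkt : k ≤ t) : ((a, k) : ℤ × ℤ) ∈ G4 q K (A4 K d) P x0 := by
  rcases h1 with h1 | h1
  · have h3 := (bk_pos h.hK h1).1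
    rcases h2 with h2 | h2
    · obtain ⟨h4, h5, h6⟩ := fl_bk h h1 h2 hk hkt
      exact ⟨hk, Or.inl ⟨h4, h5, h6⟩⟩
    · have := hT1 _ h2
      simp only at this
      omega
  · have h3 := hT1 _ h1
    simp only at h3
    rcases h2 with h2 | h2
    · have := (bk_pos h.hK h2).1
      omega
    · have h4 := hT2 h1 h2
      have h5 : t = 0 := by
        have := congrArg Prod.snd h4
        simp only at this
        omega
      exact ⟨hk, Or.inr ⟨hT3 ⟨_, h1⟩, h3, by simp only; omega⟩⟩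

theorem h4_conv (h : Num4 q v n K σ) {A : ℝ} {x0 : ℤ} (a b T k : ℤ)
    (h1 : ((a, b) : ℤ × ℤ) ∈ H4 q v K A False x0) (h2 : ((a, b + T) : ℤ × ℤ) ∈ H4 q v K A False x0)
    (hk : 0 ≤ k) (hkT : k ≤ T) : ((a, b + k) : ℤ × ℤ) ∈ H4 q v K A False x0 := by
  have hqv : (q : ℤ) * v = 2 := by exact_mod_cast h.hqv
  have hv : (1 : ℤ) ≤ v := by exact_mod_cast h.v1
  have hvR : (1 : ℝ) ≤ v := by exact_mod_cast h.v1
  have hK := h.hK
  obtain ⟨g1, g2 | ⟨g2, _, _⟩⟩ := h1
  swap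
  · exact absurd g2 id
  obtain ⟨g3, g4 | ⟨g4, _, _⟩⟩ := h2
  swap
  · exact absurd g4 id
  obtain ⟨g5, g6, g7⟩ := g2
  obtain ⟨g8, g9, g10⟩ := g4
  simp only at g1 g3 g5 g6 g7 g8 g9 g10
  refine ⟨by simp only; omega, Or.inl ⟨?_, ?_, ?_⟩⟩
  · simp only
    have : 0 ≤ (v : ℤ) * k := by positivity
    have e2 : a + (v : ℤ) * (b + k) = a + v * b + v * k := by ring
    omega
  · simp only
    have e1 : (q : ℤ) * (a + v * (b + k)) = q * (a + v * b) + (q * v) * k := by ring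
    rw [e1, hqv]
    omega
  · simp only
    push_cast at g10 ⊢
    have hkT' : (k : ℝ) ≤ T := by exact_mod_cast hkT
    have : (v + K) * k ≤ (v + K) * T := mul_le_mul_of_nonneg_left hkT' (by linarith)
    linarith

/-- the rows of the flattened set -/
def U4 (q v : ℕ) (K A : ℝ) (P : Prop) (x0 : ℤ) : Set (ℤ × ℤ) :=
  {m | 0 ≤ m.2 ∧ (((m.1 : ℝ) ≤ y4 v K A m.2 ∧ -(m.1 : ℝ) ≤ z4 q v K A m.2) ∨
    (P ∧ m.1 = x0 ∧ (x0 : ℝ) ≤ y4 v K A m.2))}

theorem h4_row (h : Num4 q v n K σ) {A : ℝ} {P : Prop} {x0 : ℤ} (hA : P → (x0 : ℝ) ≤ A)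
    {a b T k : ℤ}
    (h1 : ((a, b) : ℤ × ℤ) ∈ H4 q v K A P x0) (h2 : ((a, b + T) : ℤ × ℤ) ∈ H4 q v K A P x0)
    (hk : 0 ≤ k) (hkT : k ≤ T) : ((a, k) : ℤ × ℤ) ∈ U4 q v K A P x0 := by
  have hqv : (q : ℤ) * v = 2 := by exact_mod_cast h.hqv
  have hv : (1 : ℤ) ≤ v := by exact_mod_cast h.v1
  have hvR : (1 : ℝ) ≤ v := by exact_mod_cast h.v1
  have hK := h.hK
  have hkT' : (k : ℝ) ≤ T := by exact_mod_cast hkT
  have hkR : (0 : ℝ) ≤ k := by exact_mod_cast hk
  refine ⟨hk, ?_⟩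
  simp only
  obtain ⟨g1, g2 | ⟨g2, g3, g4⟩⟩ := h1
  · left
    obtain ⟨g5, g6, g7⟩ := g2
    simp only at g1 g5 g6 g7
    have hbR : (0 : ℝ) ≤ b := by exact_mod_cast g1
    have e1 : (q : ℤ) * (a + v * b) = q * a + (q * v) * b := by ring
    rw [e1, hqv] at g6
    have hb : (q : ℤ) * a + b ≥ 1 := by omega
    have hbR2 : (1 : ℝ) ≤ q * a + b := by exact_mod_cast hb
    have key : (a : ℝ) + (K + v) * (b + k) ≤ A := by
      obtain ⟨g8, g9 | ⟨_, g10, g11⟩⟩ := h2
      · obtain ⟨_, _, g12⟩ := g9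
        simp only at g12
        push_cast at g12
        have : (K + v) * k ≤ (K + v) * T := mul_le_mul_of_nonneg_left hkT' (by linarith)
        linarith
      · simp only at g11
        have hb0 : b = 0 := by omega
        have hk0 : k = 0 := by omega
        rw [hb0, hk0]
        rw [hb0] at g7
        push_cast at g7 ⊢
        linarith
    refine ⟨?_, ?_⟩
    · unfold y4
      have : (K + v) * b ≥ 0 := mul_nonneg (by linarith) hbR
      linarith
    · unfold z4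
      rw [le_div_iff₀ h.den]
      unfold y4
      have := mul_le_mul_of_nonneg_left hbR2 (show 0 ≤ K + v by linarith)
      linarith
  · simp only at g3 g4
    rw [g4, mul_zero, add_zero] at g3
    right
    refine ⟨g2, g3, ?_⟩
    obtain ⟨g8, g9 | ⟨_, g10, g11⟩⟩ := h2
    · obtain ⟨_, _, g12⟩ := g9
      simp only at g12
      push_cast at g12
      rw [g4, g3] at g12
      push_cast at g12
      unfold y4
      have : (K + v) * k ≤ (K + v) * T := mul_le_mul_of_nonneg_left hkT' (by linarith)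
      linarith
    · simp only at g11
      have hk0 : k = 0 := by omega
      rw [hk0]
      unfold y4
      push_cast
      have := hA g2
      linarith

theorem y4_anti (h : Num4 q v n K σ) {A : ℝ} {k l : ℝ} (hkl : k ≤ l) :
    y4 v K A l ≤ y4 v K A k := by
  unfold y4
  have h1 := h.hK
  have h3 : (0 : ℝ) ≤ v := Nat.cast_nonneg v
  have : (K + v) * k ≤ (K + v) * l := mul_le_mul_of_nonneg_left hkl (by linarith)
  linarith

theorem z4_anti (h : Num4 q v n K σ) {A : ℝ} {k l : ℝ} (hkl : k ≤ l) :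
    z4 q v K A l ≤ z4 q v K A k := by
  unfold z4
  exact div_le_div_of_nonneg_right (by linarith [y4_anti h (A := A) hkl]) h.den.le

theorem z4_step (h : Num4 q v n K σ) {A : ℝ} {k l : ℝ} (hkl : k ≤ l) :
    z4 q v K A k ≤ z4 q v K A l + 2 * (l - k) := by
  have hD := h.den
  unfold z4
  rw [div_add' _ _ _ hD.ne', div_le_div_iff_of_pos_right hD]
  unfold y4
  have h1 := h.hK
  have h3 : (0 : ℝ) ≤ v := Nat.cast_nonneg v
  have h2 : (1 : ℝ) ≤ q := by exact_mod_cast h.q1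
  have h4 : (K + v) ≤ 2 * (q * (K + v) - 1) := by nlinarith
  have h5 := mul_le_mul_of_nonneg_right h4 (show 0 ≤ l - k by linarith)
  linarith

/-- the sum of the two ends -/
theorem Num4.sum (h : Num4 q v n K σ) (A l : ℝ) :
    y4 v K A l + z4 q v K A l = A + (A - (K + v)) / (q * (K + v) - 1) - n * l := by
  have hD := h.den
  have e2 := h.eq2
  unfold z4 y4
  obtain ⟨D, hDd⟩ : ∃ D : ℝ, D = (q : ℝ) * (K + v) - 1 := ⟨_, rfl⟩
  rw [← hDd] at hD e2 ⊢
  have e3 : (A - (K + v) * l - (K + v)) / D * D = A - (K + v) * l - (K + v) :=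
    div_mul_cancel₀ _ hD.ne'
  have e4 : (A - (K + v)) / D * D = A - (K + v) := div_mul_cancel₀ _ hD.ne'
  apply mul_right_cancel₀ hD.ne'
  linear_combination e3 - e4 - l * e2 - (K + v) * l * hDd

theorem Num4.lt_n (h : Num4 q v n K σ) : K + v < n := by
  have h1 := h.kk
  have h2 := h.vv
  have h3 := h.sg
  have h4 := h.s4
  nlinarith

/-- emptiness of the flattened set -/
theorem emp_u4 (h : Num4 q v n K σ) {A : ℝ} {P : Prop} {x0 : ℤ} {m : ℕ} (hx0 : x0 ≤ 0)
    (hP : P → y4 v K A m < x0) (hsum : A + (A - (K + v)) / (q * (K + v) - 1) < n * m) :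
    EmpG 0 (fun _ : Unit => n) (fun _ => m) (U4 q v K A P x0) := by
  refine Pool.Agent.TH98.CF.EmpG_rows (Or.inl rfl) (fun m hm => hm.1) ?_
  rintro k ⟨a, g⟩ ⟨hg, hm⟩ ⟨a', g'⟩ ⟨hg', hm'⟩ hk hk'
  simp only at hg hg' hm hm' hk hk' ⊢
  have hK := h.hK
  have hvR : (0 : ℝ) ≤ v := Nat.cast_nonneg v
  have hD := h.den
  have hx0R : (x0 : ℝ) ≤ 0 := by exact_mod_cast hx0
  have hkR : (k : ℝ) ≤ g := by exact_mod_cast hk
  have hkR' : (k : ℝ) ≤ g' := by exact_mod_cast hk'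
  have hy := y4_anti h (A := A) hkR
  have hy' := y4_anti h (A := A) hkR'
  have hz := z4_anti h (A := A) hkR
  have hz' := z4_anti h (A := A) hkR'
  have hs := h.sum A k
  have hn := h.lt_n
  -- `n (m - k)` and its positive part
  obtain ⟨N, hN⟩ : ∃ N : ℝ, N = ((n * (m - k) : ℕ) : ℝ) := ⟨_, rfl⟩
  have hN0 : 0 ≤ N := by rw [hN]; positivity
  have hN1 : (n : ℝ) * m - n * k ≤ N := by
    rw [hN, Nat.cast_mul, ← mul_sub]
    refine mul_le_mul_of_nonneg_left ?_ (Nat.cast_nonneg _)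
    have : ((m : ℤ) - k : ℤ) ≤ ((m - k : ℕ) : ℤ) := by omega
    exact_mod_cast this
  -- if the extra point reaches the row then `k < m`
  have hext : P → (x0 : ℝ) ≤ y4 v K A k → y4 v K A k - x0 < N ∧ 0 < N := by
    intro hp hx
    have h1 := hP hp
    have hkm : k < m := by
      by_contra hcon
      have : (m : ℝ) ≤ k := by exact_mod_cast not_lt.1 hcon
      have := y4_anti h (A := A) this
      linarith
    have h2 : (1 : ℝ) ≤ ((m - k : ℕ) : ℝ) := by
      have : 1 ≤ m - k := by omega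
      exact_mod_cast this
    have h3 : ((m - k : ℕ) : ℝ) = m - k := Nat.cast_sub hkm.le
    have h4 : y4 v K A k = y4 v K A m + (K + v) * ((m - k : ℕ) : ℝ) := by
      rw [h3]
      unfold y4
      ring
    have h5 : (K + v) * ((m - k : ℕ) : ℝ) < N := by
      rw [hN, Nat.cast_mul]
      exact mul_lt_mul_of_pos_right hn (by linarith)
    have h6 : 0 ≤ (K + v) * ((m - k : ℕ) : ℝ) := mul_nonneg (by linarith) (by linarith)
    exact ⟨by linarith, by linarith⟩
  have hzneg : z4 q v K A k < 0 ∨ 0 < y4 v K A k := by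
    by_contra hcon
    push Not at hcon
    obtain ⟨h1, h2⟩ := hcon
    unfold z4 at h1
    have := (le_div_iff₀ hD).1 h1
    linarith
  have hmain : ((a' - a : ℤ) : ℝ) < N := by
    push_cast
    rcases hm' with ⟨c1, c2⟩ | ⟨c1, c2, c3⟩
    · rcases hm with ⟨c4, c5⟩ | ⟨c4, c5, c6⟩
      · linarith
      · have h1 := hext c4 (by linarith)
        rw [c5]
        linarith
    · rcases hm with ⟨c4, c5⟩ | ⟨c4, c5, c6⟩
      · rw [c2]
        rcases hzneg with h1 | h1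
        · linarith
        · linarith
      · have h1 := hext c1 (by linarith)
        rw [c2, c5]
        linarith
  have h7 : ((a' - a : ℤ) : ℝ) < ((∑ i : Unit, ((n * (m - k) : ℕ) : ℤ) : ℤ) : ℝ) := by
    rw [Fintype.sum_unique]
    rw [hN] at hmain
    exact_mod_cast hmain
  exact_mod_cast h7

/-- the points of the rows -/
noncomputable def ft4 (q v : ℕ) (K A : ℝ) (p : Σ _ : ℕ, ℕ) : ℤ × ℤ :=
  ((p.2 : ℤ) - ⌊z4 q v K A p.1⌋, p.1)

theorem ft4_inj (q v : ℕ) (K A : ℝ) : Function.Injective (ft4 q v K A) := by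
  rintro ⟨l, i⟩ ⟨l', i'⟩ h
  simp only [ft4, Prod.mk.injEq] at h
  obtain ⟨h1, h2⟩ := h
  have h3 : l = l' := by exact_mod_cast h2
  subst h3
  have h4 : i = i' := by omega
  subst h4
  rfl

theorem exists_W4 (h : Num4 q v n K σ) {A : ℝ} {x0 : ℤ} {M : ℕ} {R : ℕ → ℕ}
    (hR : ∀ l < M, (R l : ℝ) ≤ y4 v K A l + z4 q v K A l)
    (hnest : ∀ k l : ℕ, k ≤ l → l < M → 2 * ((l : ℝ) - k) ≤ (R k : ℝ) - R l) :
    ∃ W : Finset (ℤ × ℤ), W.card = ∑ k ∈ Finset.range M, R k ∧
      (∀ q' ∈ W, q' ∈ FlS (H4 q v K A False x0)) ∧ (∀ q ∈ W, 0 ≤ q.2) ∧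
      ∀ (k : ℕ), ∀ q ∈ W, ∀ q' ∈ W, (k : ℤ) ≤ q.2 → (k : ℤ) ≤ q'.2 →
        q'.1 - q.1 < (R k : ℤ) := by
  classical
  refine ⟨((Finset.range M).sigma fun k => Finset.range (R k)).image (ft4 q v K A), ?_, ?_, ?_, ?_⟩
  · rw [Finset.card_image_of_injective _ (ft4_inj q v K A), Finset.card_sigma]
    simp
  · intro q' hq
    rw [Finset.mem_image] at hq
    obtain ⟨⟨l, i⟩, hil, rfl⟩ := hq
    rw [Finset.mem_sigma, Finset.mem_range, Finset.mem_range] at hil
    obtain ⟨hl, hi⟩ := hil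
    simp only at hl hi
    have h1 := hR l hl
    have hy := Int.lt_floor_add_one (y4 v K A l)
    have hz := Int.lt_floor_add_one (z4 q v K A l)
    have hz' := Int.floor_le (z4 q v K A l)
    have hy' := Int.floor_le (y4 v K A l)
    obtain ⟨Z, hZ⟩ : ∃ Z : ℤ, Z = ⌊z4 q v K A l⌋ := ⟨_, rfl⟩
    obtain ⟨Y, hY⟩ : ∃ Y : ℤ, Y = ⌊y4 v K A l⌋ := ⟨_, rfl⟩
    rw [← hZ] at hz hz'
    rw [← hY] at hy hy'
    have h2 : (R l : ℤ) < Y + Z + 2 := by
      have : ((R l : ℤ) : ℝ) < ((Y + Z + 2 : ℤ) : ℝ) := by push_cast; linarith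
      exact_mod_cast this
    obtain ⟨x, hx⟩ : ∃ x : ℤ, x = i - Z := ⟨_, rfl⟩
    have hxY : x ≤ Y := by omega
    have hxy : (x : ℝ) ≤ y4 v K A l := (by exact_mod_cast hxY : (x : ℝ) ≤ Y).trans hy'
    have hxZ : -x ≤ Z := by omega
    have hxz : -(x : ℝ) ≤ z4 q v K A l := (by exact_mod_cast hxZ : -(x : ℝ) ≤ Z).trans hz'
    have e1 : ft4 q v K A ⟨l, i⟩ = (x, (l : ℤ)) := by
      unfold ft4
      rw [← hZ, hx]
    rw [e1]
    have hqv : (q : ℤ) * v = 2 := by exact_mod_cast h.hqv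
    have hq1 : (1 : ℤ) ≤ q := by exact_mod_cast h.q1
    have hv1 : (1 : ℤ) ≤ v := by exact_mod_cast h.v1
    have hK := h.hK
    have hvR : (0 : ℝ) ≤ v := Nat.cast_nonneg v
    have hlR : (0 : ℝ) ≤ l := Nat.cast_nonneg l
    have hLl : 0 ≤ (K + v) * l := mul_nonneg (by linarith) hlR
    have hvl : 0 ≤ (v : ℤ) * l := by positivity
    by_cases hx1 : 1 ≤ x
    · have hqx : x ≤ q * x := by nlinarith
      refine ⟨by simp, 0, ⟨le_rfl, Or.inl ⟨?_, ?_, ?_⟩⟩, ⟨by simp, Or.inl ⟨?_, ?_, ?_⟩⟩⟩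
      · simp only
        omega
      · simp only
        rw [mul_zero, add_zero]
        omega
      · simp only
        unfold y4 at hxy
        push_cast
        linarith
      · simp only
        rw [zero_add]
        omega
      · simp only
        have e2 : (q : ℤ) * (x + v * (0 + l)) = q * x + (q * v) * l := by ring
        rw [e2, hqv]
        omega
      · simp only
        unfold y4 at hxy
        push_cast
        linarith
    · have hqx : (q : ℤ) * x ≤ 0 := by nlinarith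
      have hvqx : (v : ℤ) * (1 - q * x) = v - 2 * x := by
        calc (v : ℤ) * (1 - q * x) = v - (q * v) * x := by ring
          _ = v - 2 * x := by rw [hqv]
      have hkey : (x : ℝ) + (K + v) * (1 - q * x + l) ≤ A := by
        unfold z4 at hxz
        rw [le_div_iff₀ h.den] at hxz
        unfold y4 at hxz
        linarith
      refine ⟨by simp, 1 - q * x, ⟨?_, Or.inl ⟨?_, ?_, ?_⟩⟩, ⟨?_, Or.inl ⟨?_, ?_, ?_⟩⟩⟩
      · simp only
        omega
      · simp only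
        rw [hvqx]
        omega
      · simp only
        have e2 : (q : ℤ) * (x + v * (1 - q * x)) = 2 - q * x := by
          rw [hvqx]
          calc (q : ℤ) * (x + (v - 2 * x)) = q * v - q * x := by ring
            _ = 2 - q * x := by rw [hqv]
        rw [e2]
        omega
      · simp only
        push_cast
        linarith
      · simp only
        omega
      · simp only
        have e2 : x + (v : ℤ) * (1 - q * x + l) = v - x + v * l := by
          rw [mul_add, hvqx]; ring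
        rw [e2]
        omega
      · simp only
        have e2 : (q : ℤ) * (x + v * (1 - q * x + l)) = 2 - q * x + 2 * l := by
          have hv3 : (v : ℤ) * (1 - q * x + l) = v - 2 * x + v * l := by rw [mul_add, hvqx]
          rw [hv3]
          calc (q : ℤ) * (x + (v - 2 * x + v * l)) = q * v - q * x + (q * v) * l := by ring
            _ = 2 - q * x + 2 * l := by rw [hqv]
        rw [e2]
        omega
      · simp only
        push_cast
        linarith
  · intro q hq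
    rw [Finset.mem_image] at hq
    obtain ⟨⟨l, i⟩, hil, rfl⟩ := hq
    simp [ft4]
  · intro k q1 hq q1' hq' hk hk'
    rw [Finset.mem_image] at hq hq'
    obtain ⟨⟨l, i⟩, hil, rfl⟩ := hq
    obtain ⟨⟨l', i'⟩, hil', rfl⟩ := hq'
    rw [Finset.mem_sigma, Finset.mem_range, Finset.mem_range] at hil hil'
    simp only [ft4] at hk hk' hil hil' ⊢
    have hkl : k ≤ l := by exact_mod_cast hk
    have hkl' : k ≤ l' := by exact_mod_cast hk'
    have hkR : (k : ℝ) ≤ l := by exact_mod_cast hkl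
    have hkR' : (k : ℝ) ≤ l' := by exact_mod_cast hkl'
    -- `⌊Z l⌋ ≤ ⌊Z k⌋ ≤ ⌊Z l'⌋ + (R k - R l')`
    have h1 : ⌊z4 q v K A l⌋ ≤ ⌊z4 q v K A k⌋ := Int.floor_mono (z4_anti h hkR)
    have h2 : ⌊z4 q v K A k⌋ ≤ ⌊z4 q v K A l'⌋ + ((R k : ℤ) - R l') := by
      rw [← Int.floor_add_intCast]
      apply Int.floor_mono
      push_cast
      have h3 := z4_step h (A := A) hkR'
      have h4 := hnest k l' hkl' hil'.1
      linarith
    have h5 : (i' : ℤ) < R l' := by exact_mod_cast hil'.2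
    have h7 : (0 : ℤ) ≤ i := Int.natCast_nonneg i
    linarith

end

end Pool.Agent.L7h13.NQ
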