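import Pool.Agent.L7h13.NQ.Gen

/-!
# Two flattenings of a block of the width `M`: `M + 2` and `M + 4` points

The general version of `L7h13.NQ.Two`.
-/

set_option autoImplicit false

namespace Pool.Agent.L7h13.NQ

open Pool.Agent.TH603.EL Pool.Agent.TH716.CF Pool.Agent.TH518.CW
open Pool.Agent.N388.EFC

/-- the parameters -/
structure NumG (M q v n : ℕ) (K δ σ : ℝ) : Prop where
  hKM : (M : ℝ) < K
  hK : 16 < K
  q1 : 1 ≤ q
  v1 : 1 ≤ v
  hqv : q * v = 2
  eq1 : (q : ℝ) * (K * (K - M)) = M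
  eq2 : (q : ℝ) * (K + v) ^ 2 = n * (q * (K + v) - 1)
  irr : Irrational K
  sg : σ ^ 2 = n
  d2 : δ ^ 2 = M
  d0 : 0 < δ
  ds : δ < σ
  kk : 2 * K = M + δ * σ
  vv : 2 * (v : ℝ) = n - M

/-- the block without its apex -/
def BP (M : ℕ) (K η : ℝ) : Set (ℤ × ℤ) := {p | p ∈ BB M K η ∧ 1 ≤ p.1}

section
variable {M q v n : ℕ} {K δ σ : ℝ}

theorem NumG.den (h : NumG M q v n K δ σ) : 0 < (q : ℝ) * (K + v) - 1 := by
  have h1 := h.hK
  have h2 : (1 : ℝ) ≤ q := by exact_mod_cast h.q1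
  have h3 : (0 : ℝ) ≤ v := Nat.cast_nonneg v
  nlinarith

theorem NumG.q0 (h : NumG M q v n K δ σ) : (0 : ℝ) < q := by
  have h2 : (1 : ℝ) ≤ q := by exact_mod_cast h.q1
  linarith

theorem NumG.M0 (h : NumG M q v n K δ σ) : (0 : ℝ) < M := by
  rw [← h.d2]
  exact pow_pos h.d0 2

/-- the columns of the block -/
theorem fl_bp (h : NumG M q v n K δ σ) {η : ℝ} (hz : ∃ z : ℤ, M * η = z) {a b T k : ℤ}
    (h1 : ((a, b) : ℤ × ℤ) ∈ BP M K η) (h2 : ((a, b + T) : ℤ × ℤ) ∈ BP M K η) (hkT : k ≤ T) :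
    1 ≤ a ∧ k + 1 ≤ q * a ∧ (a : ℝ) + K * k ≤ K * η := by
  obtain ⟨h1, hp⟩ := h1
  obtain ⟨h2, _⟩ := h2
  simp only at hp
  obtain ⟨z, hz⟩ := hz
  obtain ⟨g1, g2, g3⟩ := h1
  obtain ⟨g4, g5, g6⟩ := h2
  simp only at g1 g2 g3 g4 g5 g6
  push_cast at g5 g6
  have hK := h.hK
  have hKM := h.hKM
  have hq0 := h.q0
  have hM0 := h.M0
  obtain ⟨u, hu⟩ : ∃ u : ℝ, u = η - b := ⟨_, rfl⟩
  have hkT' : (k : ℝ) ≤ T := by exact_mod_cast hkT
  have hbR : (0 : ℝ) ≤ b := by exact_mod_cast g1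
  have e1 : (K - M) * u ≤ a := by rw [hu]; exact g2
  have e2 : (a : ℝ) ≤ K * (u - k) := by
    have e3 : K * (η - (b + T)) = K * (u - k) - K * (T - k) := by
      rw [hu]; ring
    have e4 : 0 ≤ K * ((T : ℝ) - k) := mul_nonneg (by linarith) (by linarith)
    linarith
  have f1 : M * u ≤ q * K * a := by
    have f2 : q * K * ((K - M) * u) ≤ q * K * a := mul_le_mul_of_nonneg_left e1 (by positivity)
    have f3 : q * K * ((K - M) * u) = M * u := by
      calc q * K * ((K - M) * u) = (q * (K * (K - M))) * u := by ring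
        _ = M * u := by rw [h.eq1]
    linarith
  have f4 : q * (K - M) * a ≤ M * (u - k) := by
    have f2 : q * (K - M) * a ≤ q * (K - M) * (K * (u - k)) :=
      mul_le_mul_of_nonneg_left e2 (mul_nonneg hq0.le (by linarith))
    have f3 : q * (K - M) * (K * (u - k)) = M * (u - k) := by
      calc q * (K - M) * (K * (u - k)) = (q * (K * (K - M))) * (u - k) := by ring
        _ = M * (u - k) := by rw [h.eq1]
    linarith
  have f6 : q * K * (a : ℝ) - q * (K - M) * a = M * (q * a) := by ring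
  have f5 : (k : ℝ) ≤ q * a := by
    have : (M : ℝ) * k ≤ M * (q * a) := by linarith
    exact le_of_mul_le_mul_left this hM0
  refine ⟨hp, ?_, ?_⟩
  · have h5 : k ≤ q * a := by exact_mod_cast f5
    by_contra hcon
    have h6 : k = q * a := by omega
    have h7 : (k : ℝ) = q * a := by exact_mod_cast h6
    have h8 : q * K * (a : ℝ) = M * u := by
      apply le_antisymm _ f1
      rw [← h7] at f6
      linarith
    have h9 : ((q * a : ℤ) : ℝ) * K = ((z - M * b : ℤ) : ℝ) := by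
      rw [hu] at h8
      push_cast
      rw [← hz]
      linarith
    have hqa : (q * a : ℤ) ≠ 0 := by
      have : (0 : ℤ) < q := by exact_mod_cast hq0
      exact mul_ne_zero this.ne' (by omega)
    have h10 := (h.irr.intCast_mul hqa)
    rw [h9] at h10
    exact Int.not_irrational _ h10
  · have e5 : K * (u - k) = K * η - K * b - K * k := by rw [hu]; ring
    have : K * b ≥ 0 := by positivity
    linarith

/-- the points of the first flattening -/
theorem bp_fl (h : NumG M q v n K δ σ) {η : ℝ} {t k : ℤ} (hk : 0 ≤ k) (h1 : 1 ≤ t)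
    (h2 : k + 1 ≤ q * t) (h3 : (t : ℝ) + K * k ≤ K * η) :
    ((t, k) : ℤ × ℤ) ∈ FlS (BP M K η) := by
  have hK := h.hK
  have hKM := h.hKM
  have hq0 := h.q0
  have hkR : (0 : ℝ) ≤ k := by exact_mod_cast hk
  have h2R : (k : ℝ) + 1 ≤ q * t := by exact_mod_cast h2
  have h1R : (1 : ℝ) ≤ t := by exact_mod_cast h1
  have e0 : (t : ℝ) / K + k ≤ η := by
    have h7 : (t : ℝ) / K + k = (t + K * k) / K := by field_simp
    rw [h7, div_le_iff₀ (by linarith)]
    linarith
  obtain ⟨b, hb⟩ : ∃ b : ℤ, b = ⌊η - t / K - k⌋ := ⟨_, rfl⟩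
  have hb0 : 0 ≤ b := by
    rw [hb]
    apply Int.floor_nonneg.2
    linarith
  have hb1 : (b : ℝ) ≤ η - t / K - k := by rw [hb]; exact Int.floor_le _
  have hb2 : η - t / K - k < b + 1 := by rw [hb]; exact Int.lt_floor_add_one _
  have e1 : K * ((t : ℝ) / K) = t := by field_simp
  have e2 : (K - M) * ((t : ℝ) / K + q * t) = t := by
    have e3 : (K - M) * ((t : ℝ) / K + q * t) * K = t * K := by
      calc (K - M) * ((t : ℝ) / K + q * t) * K = (K - M) * (K * (t / K)) +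
            t * (q * (K * (K - M))) := by ring
        _ = t * K := by rw [e1, h.eq1]; ring
    exact mul_right_cancel₀ (by linarith : K ≠ 0) e3
  have e4 : (K - M) * (η - b) ≤ t := by
    rw [← e2]
    exact mul_le_mul_of_nonneg_left (by linarith) (by linarith)
  have e5 : (t : ℝ) ≤ K * (η - b - k) := by
    rw [← e1]
    exact mul_le_mul_of_nonneg_left (by linarith) (by linarith)
  have e6 : (0 : ℝ) ≤ K * k := by positivity
  have e7 : (0 : ℝ) ≤ (K - M) * k := mul_nonneg (by linarith) hkR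
  refine ⟨hk, b, ⟨⟨hb0, ?_, ?_⟩, h1⟩, ⟨⟨by simp only; omega, ?_, ?_⟩, h1⟩⟩
  · simp only
    exact e4
  · simp only
    have : K * (η - b - k) = K * (η - b) - K * k := by ring
    linarith
  · simp only
    push_cast
    have : (K - M) * (η - (b + k)) = (K - M) * (η - b) - (K - M) * k := by ring
    linarith
  · simp only
    push_cast
    have : K * (η - (b + k)) = K * (η - b - k) := by ring
    linarith

/-- the first flattening, with one more point in the column `x0 ≤ 0` -/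
theorem fg_ext (h : NumG M q v n K δ σ) {η : ℝ} (hz : ∃ z : ℤ, M * η = z) {T : Set (ℤ × ℤ)}
    {P : Prop} {x0 : ℤ} (hx0 : x0 ≤ 0)
    (hT1 : ∀ m ∈ T, m.1 = x0) (hT2 : T.Subsingleton) (hT3 : T.Nonempty → P) {a b t k : ℤ}
    (h1 : ((a, b) : ℤ × ℤ) ∈ BP M K η ∪ T) (h2 : ((a, b + t) : ℤ × ℤ) ∈ BP M K η ∪ T)
    (hk : 0 ≤ k) (hkt : k ≤ t) : ((a, k) : ℤ × ℤ) ∈ G4 q K (K * η) P x0 := by
  rcases h1 with h1 | h1
  · have h3 := h1.2
    simp only at h3
    rcases h2 with h2 | h2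
    · obtain ⟨h4, h5, h6⟩ := fl_bp h hz h1 h2 hkt
      exact ⟨hk, Or.inl ⟨h4, h5, h6⟩⟩
    · have := hT1 _ h2
      simp only at this
      omega
  · have h3 := hT1 _ h1
    simp only at h3
    rcases h2 with h2 | h2
    · have := h2.2
      simp only at this
      omega
    · have h4 := hT2 h1 h2
      have h5 : t = 0 := by
        have := congrArg Prod.snd h4
        simp only at this
        omega
      exact ⟨hk, Or.inr ⟨hT3 ⟨_, h1⟩, h3, by simp only; omega⟩⟩

theorem hg_conv (h : NumG M q v n K δ σ) {A : ℝ} {x0 : ℤ} (a b T k : ℤ)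
    (h1 : ((a, b) : ℤ × ℤ) ∈ H4 q v K A False x0) (h2 : ((a, b + T) : ℤ × ℤ) ∈ H4 q v K A False x0)
    (hk : 0 ≤ k) (hkT : k ≤ T) : ((a, b + k) : ℤ × ℤ) ∈ H4 q v K A False x0 := by
  have hqv : (q : ℤ) * v = 2 := by exact_mod_cast h.hqv
  have hv : (1 : ℤ) ≤ v := by exact_mod_cast h.v1
  have hvR : (1 : ℝ) ≤ v := by exact_mod_cast h.v1
  have hK := h.hK
  obtain ⟨g1, g2 | ⟨g2, _, _⟩⟩ := h1
  swap
  · exact absurd g2 id
  obtain ⟨g3, g4 | ⟨g4, _, _⟩⟩ := h2
  swap
  · exact absurd g4 id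
  obtain ⟨g5, g6, g7⟩ := g2
  obtain ⟨g8, g9, g10⟩ := g4
  simp only at g1 g3 g5 g6 g7 g8 g9 g10
  refine ⟨by simp only; omega, Or.inl ⟨?_, ?_, ?_⟩⟩
  · simp only
    have : 0 ≤ (v : ℤ) * k := by positivity
    have e2 : a + (v : ℤ) * (b + k) = a + v * b + v * k := by ring
    omega
  · simp only
    have e1 : (q : ℤ) * (a + v * (b + k)) = q * (a + v * b) + (q * v) * k := by ring
    rw [e1, hqv]
    omega
  · simp only
    push_cast at g10 ⊢
    have hkT' : (k : ℝ) ≤ T := by exact_mod_cast hkT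
    have : (v + K) * k ≤ (v + K) * T := mul_le_mul_of_nonneg_left hkT' (by linarith)
    linarith

theorem hg_row (h : NumG M q v n K δ σ) {A : ℝ} {P : Prop} {x0 : ℤ} (hA : P → (x0 : ℝ) ≤ A)
    {a b T k : ℤ}
    (h1 : ((a, b) : ℤ × ℤ) ∈ H4 q v K A P x0) (h2 : ((a, b + T) : ℤ × ℤ) ∈ H4 q v K A P x0)
    (hk : 0 ≤ k) (hkT : k ≤ T) : ((a, k) : ℤ × ℤ) ∈ U4 q v K A P x0 := by
  have hqv : (q : ℤ) * v = 2 := by exact_mod_cast h.hqv
  have hv : (1 : ℤ) ≤ v := by exact_mod_cast h.v1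
  have hvR : (1 : ℝ) ≤ v := by exact_mod_cast h.v1
  have hK := h.hK
  have hkT' : (k : ℝ) ≤ T := by exact_mod_cast hkT
  have hkR : (0 : ℝ) ≤ k := by exact_mod_cast hk
  refine ⟨hk, ?_⟩
  simp only
  obtain ⟨g1, g2 | ⟨g2, g3, g4⟩⟩ := h1
  · left
    obtain ⟨g5, g6, g7⟩ := g2
    simp only at g1 g5 g6 g7
    have hbR : (0 : ℝ) ≤ b := by exact_mod_cast g1
    have e1 : (q : ℤ) * (a + v * b) = q * a + (q * v) * b := by ring
    rw [e1, hqv] at g6
    have hb : (q : ℤ) * a + b ≥ 1 := by omega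
    have hbR2 : (1 : ℝ) ≤ q * a + b := by exact_mod_cast hb
    have key : (a : ℝ) + (K + v) * (b + k) ≤ A := by
      obtain ⟨g8, g9 | ⟨_, g10, g11⟩⟩ := h2
      · obtain ⟨_, _, g12⟩ := g9
        simp only at g12
        push_cast at g12
        have : (K + v) * k ≤ (K + v) * T := mul_le_mul_of_nonneg_left hkT' (by linarith)
        linarith
      · simp only at g11
        have hb0 : b = 0 := by omega
        have hk0 : k = 0 := by omega
        rw [hb0, hk0]
        rw [hb0] at g7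
        push_cast at g7 ⊢
        linarith
    refine ⟨?_, ?_⟩
    · unfold y4
      have : (K + v) * b ≥ 0 := mul_nonneg (by linarith) hbR
      linarith
    · unfold z4
      rw [le_div_iff₀ h.den]
      unfold y4
      have := mul_le_mul_of_nonneg_left hbR2 (show 0 ≤ K + v by linarith)
      linarith
  · simp only at g3 g4
    rw [g4, mul_zero, add_zero] at g3
    right
    refine ⟨g2, g3, ?_⟩
    obtain ⟨g8, g9 | ⟨_, g10, g11⟩⟩ := h2
    · obtain ⟨_, _, g12⟩ := g9
      simp only at g12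
      push_cast at g12
      rw [g4, g3] at g12
      push_cast at g12
      unfold y4
      have : (K + v) * k ≤ (K + v) * T := mul_le_mul_of_nonneg_left hkT' (by linarith)
      linarith
    · simp only at g11
      have hk0 : k = 0 := by omega
      rw [hk0]
      unfold y4
      push_cast
      have := hA g2
      linarith

theorem yg_anti (h : NumG M q v n K δ σ) {A : ℝ} {k l : ℝ} (hkl : k ≤ l) :
    y4 v K A l ≤ y4 v K A k := by
  unfold y4
  have h1 := h.hK
  have h3 : (0 : ℝ) ≤ v := Nat.cast_nonneg v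
  have : (K + v) * k ≤ (K + v) * l := mul_le_mul_of_nonneg_left hkl (by linarith)
  linarith

theorem zg_anti (h : NumG M q v n K δ σ) {A : ℝ} {k l : ℝ} (hkl : k ≤ l) :
    z4 q v K A l ≤ z4 q v K A k := by
  unfold z4
  exact div_le_div_of_nonneg_right (by linarith [yg_anti h (A := A) hkl]) h.den.le

theorem zg_step (h : NumG M q v n K δ σ) {A : ℝ} {k l : ℝ} (hkl : k ≤ l) :
    z4 q v K A k ≤ z4 q v K A l + 2 * (l - k) := by
  have hD := h.den
  unfold z4
  rw [div_add' _ _ _ hD.ne', div_le_div_iff_of_pos_right hD]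
  unfold y4
  have h1 := h.hK
  have h3 : (0 : ℝ) ≤ v := Nat.cast_nonneg v
  have h2 : (1 : ℝ) ≤ q := by exact_mod_cast h.q1
  have h4 : (K + v) ≤ 2 * (q * (K + v) - 1) := by nlinarith
  have h5 := mul_le_mul_of_nonneg_right h4 (show 0 ≤ l - k by linarith)
  linarith

/-- the sum of the two ends -/
theorem NumG.sum (h : NumG M q v n K δ σ) (A l : ℝ) :
    y4 v K A l + z4 q v K A l = A + (A - (K + v)) / (q * (K + v) - 1) - n * l := by
  have hD := h.den
  have e2 := h.eq2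
  unfold z4 y4
  obtain ⟨D, hDd⟩ : ∃ D : ℝ, D = (q : ℝ) * (K + v) - 1 := ⟨_, rfl⟩
  rw [← hDd] at hD e2 ⊢
  have e3 : (A - (K + v) * l - (K + v)) / D * D = A - (K + v) * l - (K + v) :=
    div_mul_cancel₀ _ hD.ne'
  have e4 : (A - (K + v)) / D * D = A - (K + v) := div_mul_cancel₀ _ hD.ne'
  apply mul_right_cancel₀ hD.ne'
  linear_combination e3 - e4 - l * e2 - (K + v) * l * hDd

theorem NumG.LL (h : NumG M q v n K δ σ) : K + v = σ * (δ + σ) / 2 := by
  have h1 := h.sg
  have h2 := h.kk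
  have h3 := h.vv
  linear_combination (1 / 2) * h2 + (1 / 2) * h3 - (1 / 2) * h1

theorem NumG.lt_n (h : NumG M q v n K δ σ) : K + v < n := by
  rw [h.LL, ← h.sg]
  have h4 := h.ds
  have h5 := h.d0
  nlinarith

/-- emptiness of the flattened set -/
theorem emp_ug (h : NumG M q v n K δ σ) {A : ℝ} {P : Prop} {x0 : ℤ} {m : ℕ} (hx0 : x0 ≤ 0)
    (hP : P → y4 v K A m < x0) (hsum : A + (A - (K + v)) / (q * (K + v) - 1) < n * m) :
    EmpG 0 (fun _ : Unit => n) (fun _ => m) (U4 q v K A P x0) := by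
  refine Pool.Agent.TH98.CF.EmpG_rows (Or.inl rfl) (fun m hm => hm.1) ?_
  rintro k ⟨a, g⟩ ⟨hg, hm⟩ ⟨a', g'⟩ ⟨hg', hm'⟩ hk hk'
  simp only at hg hg' hm hm' hk hk' ⊢
  have hK := h.hK
  have hvR : (0 : ℝ) ≤ v := Nat.cast_nonneg v
  have hD := h.den
  have hx0R : (x0 : ℝ) ≤ 0 := by exact_mod_cast hx0
  have hkR : (k : ℝ) ≤ g := by exact_mod_cast hk
  have hkR' : (k : ℝ) ≤ g' := by exact_mod_cast hk'
  have hy := yg_anti h (A := A) hkR
  have hy' := yg_anti h (A := A) hkR'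
  have hz := zg_anti h (A := A) hkR
  have hz' := zg_anti h (A := A) hkR'
  have hs := h.sum A k
  have hn := h.lt_n
  -- `n (m - k)` and its positive part
  obtain ⟨N, hN⟩ : ∃ N : ℝ, N = ((n * (m - k) : ℕ) : ℝ) := ⟨_, rfl⟩
  have hN0 : 0 ≤ N := by rw [hN]; positivity
  have hN1 : (n : ℝ) * m - n * k ≤ N := by
    rw [hN, Nat.cast_mul, ← mul_sub]
    refine mul_le_mul_of_nonneg_left ?_ (Nat.cast_nonneg _)
    have : ((m : ℤ) - k : ℤ) ≤ ((m - k : ℕ) : ℤ) := by omega
    exact_mod_cast this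
  -- if the extra point reaches the row then `k < m`
  have hext : P → (x0 : ℝ) ≤ y4 v K A k → y4 v K A k - x0 < N ∧ 0 < N := by
    intro hp hx
    have h1 := hP hp
    have hkm : k < m := by
      by_contra hcon
      have : (m : ℝ) ≤ k := by exact_mod_cast not_lt.1 hcon
      have := yg_anti h (A := A) this
      linarith
    have h2 : (1 : ℝ) ≤ ((m - k : ℕ) : ℝ) := by
      have : 1 ≤ m - k := by omega
      exact_mod_cast this
    have h3 : ((m - k : ℕ) : ℝ) = m - k := Nat.cast_sub hkm.le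
    have h4 : y4 v K A k = y4 v K A m + (K + v) * ((m - k : ℕ) : ℝ) := by
      rw [h3]
      unfold y4
      ring
    have h5 : (K + v) * ((m - k : ℕ) : ℝ) < N := by
      rw [hN, Nat.cast_mul]
      exact mul_lt_mul_of_pos_right hn (by linarith)
    have h6 : 0 ≤ (K + v) * ((m - k : ℕ) : ℝ) := mul_nonneg (by linarith) (by linarith)
    exact ⟨by linarith, by linarith⟩
  have hzneg : z4 q v K A k < 0 ∨ 0 < y4 v K A k := by
    by_contra hcon
    push Not at hcon
    obtain ⟨h1, h2⟩ := hcon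
    unfold z4 at h1
    have := (le_div_iff₀ hD).1 h1
    linarith
  have hmain : ((a' - a : ℤ) : ℝ) < N := by
    push_cast
    rcases hm' with ⟨c1, c2⟩ | ⟨c1, c2, c3⟩
    · rcases hm with ⟨c4, c5⟩ | ⟨c4, c5, c6⟩
      · linarith
      · have h1 := hext c4 (by linarith)
        rw [c5]
        linarith
    · rcases hm with ⟨c4, c5⟩ | ⟨c4, c5, c6⟩
      · rw [c2]
        rcases hzneg with h1 | h1
        · linarith
        · linarith
      · have h1 := hext c1 (by linarith)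
        rw [c2, c5]
        linarith
  have h7 : ((a' - a : ℤ) : ℝ) < ((∑ i : Unit, ((n * (m - k) : ℕ) : ℤ) : ℤ) : ℝ) := by
    rw [Fintype.sum_unique]
    rw [hN] at hmain
    exact_mod_cast hmain
  exact_mod_cast h7

theorem exists_Wg (h : NumG M q v n K δ σ) {A : ℝ} {x0 : ℤ} {M₁ : ℕ} {R : ℕ → ℕ}
    (hR : ∀ l < M₁, (R l : ℝ) ≤ y4 v K A l + z4 q v K A l)
    (hnest : ∀ k l : ℕ, k ≤ l → l < M₁ → 2 * ((l : ℝ) - k) ≤ (R k : ℝ) - R l) :
    ∃ W : Finset (ℤ × ℤ), W.card = ∑ k ∈ Finset.range M₁, R k ∧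
      (∀ q' ∈ W, q' ∈ FlS (H4 q v K A False x0)) ∧ (∀ q ∈ W, 0 ≤ q.2) ∧
      ∀ (k : ℕ), ∀ q ∈ W, ∀ q' ∈ W, (k : ℤ) ≤ q.2 → (k : ℤ) ≤ q'.2 →
        q'.1 - q.1 < (R k : ℤ) := by
  classical
  refine ⟨((Finset.range M₁).sigma fun k => Finset.range (R k)).image (ft4 q v K A), ?_, ?_, ?_, ?_⟩
  · rw [Finset.card_image_of_injective _ (ft4_inj q v K A), Finset.card_sigma]
    simp
  · intro q' hq
    rw [Finset.mem_image] at hq
    obtain ⟨⟨l, i⟩, hil, rfl⟩ := hq
    rw [Finset.mem_sigma, Finset.mem_range, Finset.mem_range] at hil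
    obtain ⟨hl, hi⟩ := hil
    simp only at hl hi
    have h1 := hR l hl
    have hy := Int.lt_floor_add_one (y4 v K A l)
    have hz := Int.lt_floor_add_one (z4 q v K A l)
    have hz' := Int.floor_le (z4 q v K A l)
    have hy' := Int.floor_le (y4 v K A l)
    obtain ⟨Z, hZ⟩ : ∃ Z : ℤ, Z = ⌊z4 q v K A l⌋ := ⟨_, rfl⟩
    obtain ⟨Y, hY⟩ : ∃ Y : ℤ, Y = ⌊y4 v K A l⌋ := ⟨_, rfl⟩
    rw [← hZ] at hz hz'
    rw [← hY] at hy hy'
    have h2 : (R l : ℤ) < Y + Z + 2 := by
      have : ((R l : ℤ) : ℝ) < ((Y + Z + 2 : ℤ) : ℝ) := by push_cast; linarith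
      exact_mod_cast this
    obtain ⟨x, hx⟩ : ∃ x : ℤ, x = i - Z := ⟨_, rfl⟩
    have hxY : x ≤ Y := by omega
    have hxy : (x : ℝ) ≤ y4 v K A l := (by exact_mod_cast hxY : (x : ℝ) ≤ Y).trans hy'
    have hxZ : -x ≤ Z := by omega
    have hxz : -(x : ℝ) ≤ z4 q v K A l := (by exact_mod_cast hxZ : -(x : ℝ) ≤ Z).trans hz'
    have e1 : ft4 q v K A ⟨l, i⟩ = (x, (l : ℤ)) := by
      unfold ft4
      rw [← hZ, hx]
    rw [e1]
    have hqv : (q : ℤ) * v = 2 := by exact_mod_cast h.hqv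
    have hq1 : (1 : ℤ) ≤ q := by exact_mod_cast h.q1
    have hv1 : (1 : ℤ) ≤ v := by exact_mod_cast h.v1
    have hK := h.hK
    have hvR : (0 : ℝ) ≤ v := Nat.cast_nonneg v
    have hlR : (0 : ℝ) ≤ l := Nat.cast_nonneg l
    have hLl : 0 ≤ (K + v) * l := mul_nonneg (by linarith) hlR
    have hvl : 0 ≤ (v : ℤ) * l := by positivity
    by_cases hx1 : 1 ≤ x
    · have hqx : x ≤ q * x := by nlinarith
      refine ⟨by simp, 0, ⟨le_rfl, Or.inl ⟨?_, ?_, ?_⟩⟩, ⟨by simp, Or.inl ⟨?_, ?_, ?_⟩⟩⟩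
      · simp only
        omega
      · simp only
        rw [mul_zero, add_zero]
        omega
      · simp only
        unfold y4 at hxy
        push_cast
        linarith
      · simp only
        rw [zero_add]
        omega
      · simp only
        have e2 : (q : ℤ) * (x + v * (0 + l)) = q * x + (q * v) * l := by ring
        rw [e2, hqv]
        omega
      · simp only
        unfold y4 at hxy
        push_cast
        linarith
    · have hqx : (q : ℤ) * x ≤ 0 := by nlinarith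
      have hvqx : (v : ℤ) * (1 - q * x) = v - 2 * x := by
        calc (v : ℤ) * (1 - q * x) = v - (q * v) * x := by ring
          _ = v - 2 * x := by rw [hqv]
      have hkey : (x : ℝ) + (K + v) * (1 - q * x + l) ≤ A := by
        unfold z4 at hxz
        rw [le_div_iff₀ h.den] at hxz
        unfold y4 at hxz
        linarith
      refine ⟨by simp, 1 - q * x, ⟨?_, Or.inl ⟨?_, ?_, ?_⟩⟩, ⟨?_, Or.inl ⟨?_, ?_, ?_⟩⟩⟩
      · simp only
        omega
      · simp only
        rw [hvqx]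
        omega
      · simp only
        have e2 : (q : ℤ) * (x + v * (1 - q * x)) = 2 - q * x := by
          rw [hvqx]
          calc (q : ℤ) * (x + (v - 2 * x)) = q * v - q * x := by ring
            _ = 2 - q * x := by rw [hqv]
        rw [e2]
        omega
      · simp only
        push_cast
        linarith
      · simp only
        omega
      · simp only
        have e2 : x + (v : ℤ) * (1 - q * x + l) = v - x + v * l := by
          rw [mul_add, hvqx]; ring
        rw [e2]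
        omega
      · simp only
        have e2 : (q : ℤ) * (x + v * (1 - q * x + l)) = 2 - q * x + 2 * l := by
          have hv3 : (v : ℤ) * (1 - q * x + l) = v - 2 * x + v * l := by rw [mul_add, hvqx]
          rw [hv3]
          calc (q : ℤ) * (x + (v - 2 * x + v * l)) = q * v - q * x + (q * v) * l := by ring
            _ = 2 - q * x + 2 * l := by rw [hqv]
        rw [e2]
        omega
      · simp only
        push_cast
        linarith
  · intro q hq
    rw [Finset.mem_image] at hq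
    obtain ⟨⟨l, i⟩, hil, rfl⟩ := hq
    simp [ft4]
  · intro k q1 hq q1' hq' hk hk'
    rw [Finset.mem_image] at hq hq'
    obtain ⟨⟨l, i⟩, hil, rfl⟩ := hq
    obtain ⟨⟨l', i'⟩, hil', rfl⟩ := hq'
    rw [Finset.mem_sigma, Finset.mem_range, Finset.mem_range] at hil hil'
    simp only [ft4] at hk hk' hil hil' ⊢
    have hkl : k ≤ l := by exact_mod_cast hk
    have hkl' : k ≤ l' := by exact_mod_cast hk'
    have hkR : (k : ℝ) ≤ l := by exact_mod_cast hkl
    have hkR' : (k : ℝ) ≤ l' := by exact_mod_cast hkl'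
    -- `⌊Z l⌋ ≤ ⌊Z k⌋ ≤ ⌊Z l'⌋ + (R k - R l')`
    have h1 : ⌊z4 q v K A l⌋ ≤ ⌊z4 q v K A k⌋ := Int.floor_mono (zg_anti h hkR)
    have h2 : ⌊z4 q v K A k⌋ ≤ ⌊z4 q v K A l'⌋ + ((R k : ℤ) - R l') := by
      rw [← Int.floor_add_intCast]
      apply Int.floor_mono
      push_cast
      have h3 := zg_step h (A := A) hkR'
      have h4 := hnest k l' hkl' hil'.1
      linarith
    have h5 : (i' : ℤ) < R l' := by exact_mod_cast hil'.2
    have h7 : (0 : ℤ) ≤ i := Int.natCast_nonneg i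
    linarith

/-- the threshold -/
theorem NumG.thr (h : NumG M q v n K δ σ) (d : ℝ) :
    K * ((2 * d + 3 - δ) / (2 * δ)) + (K * ((2 * d + 3 - δ) / (2 * δ)) - (K + v)) /
      (q * (K + v) - 1) = σ * (2 * d + 3 - σ) / 2 := by
  have hD := h.den
  have hd := h.d0
  have hq : (q : ℝ) * (σ ^ 2 - δ ^ 2) = 4 := by
    have h2 : (q : ℝ) * v = 2 := by exact_mod_cast h.hqv
    have h3 := h.vv
    rw [h.sg, h.d2]
    linear_combination 2 * h2 - (q : ℝ) * h3
  have hA : K * ((2 * d + 3 - δ) / (2 * δ)) = (δ + σ) * (2 * d + 3 - δ) / 4 := by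
    have hK : K = δ * (δ + σ) / 2 := by
      have h2 := h.kk
      rw [← h.d2] at h2
      linear_combination (1 / 2) * h2
    rw [hK]
    field_simp
    ring
  rw [add_div' _ _ _ hD.ne', div_eq_iff hD.ne', hA, h.LL]
  linear_combination (σ / 2) * (σ / 2 - (2 * d + 3 - δ) / 4) * hq

theorem NumG.y_eq (h : NumG M q v n K δ σ) (d l : ℝ) :
    y4 v K (K * ((2 * d + 3 - δ) / (2 * δ))) l = (δ + σ) / 4 * (2 * d + 3 - δ - 2 * σ * l) := by
  have hd := h.d0
  have hA : K * ((2 * d + 3 - δ) / (2 * δ)) = (δ + σ) * (2 * d + 3 - δ) / 4 := by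
    have hK : K = δ * (δ + σ) / 2 := by
      have h2 := h.kk
      rw [← h.d2] at h2
      linear_combination (1 / 2) * h2
    rw [hK]
    field_simp
    ring
  unfold y4
  rw [hA, h.LL]
  ring

theorem thrg (h : NumG M q v n K δ σ) (m d : ℝ) :
    (n : ℝ) * m ≤ σ * (2 * d + 3 - σ) / 2 ↔ σ * (2 * m + 1) ≤ 2 * d + 3 := by
  have h1 := h.sg
  have h4 := h.ds
  have h5 := h.d0
  have e1 : σ * (2 * d + 3 - σ) / 2 - (n : ℝ) * m = σ / 2 * (2 * d + 3 - σ * (2 * m + 1)) := by
    rw [← h1]; ring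
  constructor
  · intro h
    have h2 : 0 ≤ σ / 2 * (2 * d + 3 - σ * (2 * m + 1)) := by rw [← e1]; linarith
    have h4 := nonneg_of_mul_nonneg_right h2 (by linarith)
    linarith
  · intro h
    have h2 : 0 ≤ σ / 2 * (2 * d + 3 - σ * (2 * m + 1)) := mul_nonneg (by linarith) (by linarith)
    rw [← e1] at h2
    linarith

/-- **emptiness for the block with an extra point** -/
theorem emp_two_g (h : NumG M q v n K δ σ) {η : ℝ} (hz : ∃ z : ℤ, M * η = z) {T : Set (ℤ × ℤ)}
    {m : ℕ} {x0 : ℤ} (hx0 : x0 ≤ 0) (hT1 : ∀ m ∈ T, m.1 = x0) (hT2 : T.Subsingleton)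
    (hA : T.Nonempty → (x0 : ℝ) ≤ K * η) (hy : T.Nonempty → y4 v K (K * η) m < x0)
    (hsum : K * η + (K * η - (K + v)) / (q * (K + v) - 1) < n * m) :
    EmpG 0 (fun _ : Unit => n) (fun _ => m) (BP M K η ∪ T) := by
  have hE := emp_ug h (A := K * η) (P := T.Nonempty) (x0 := x0) (m := m) hx0 hy hsum
  have e1 : EmpG 0 (fun _ : Unit => n) (fun _ => m) (H4 q v K (K * η) T.Nonempty x0) := by
    refine hE.flat0 ?_
    intro a b T k h1 h2 hk hkT
    exact hg_row h hA h1 h2 hk hkT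
  have e2 : EmpG 0 (fun _ : Unit => n) (fun _ => m) (G4 q K (K * η) T.Nonempty x0) := by
    refine e1.shear (-(v : ℤ)) ?_
    rintro ⟨a, k⟩ hm
    show ((a + -(v : ℤ) * k + v * k, k) : ℤ × ℤ) ∈ G4 q K (K * η) T.Nonempty x0
    have e2 : a + -(v : ℤ) * k + v * k = a := by ring
    rw [e2]
    exact hm
  refine e2.flat0 ?_
  intro a b t k h1 h2 hk hkT
  exact fg_ext h hz hx0 hT1 hT2 id h1 h2 hk hkT

/-- **independence**: the emptiness with simple points for a region which contains the block -/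
theorem ind_two_g (h : NumG M q v n K δ σ) {η : ℝ} (hz : ∃ z : ℤ, M * η = z) {m N : ℕ}
    {S : Set (ℤ × ℤ)} (hS : S.Finite) (hBS : BP M K η ⊆ S) (hN : S.ncard ≤ N) (hn : 2 ≤ n)
    (hm : (n : ℝ) * m ≤ K * η + (K * η - (K + v)) / (q * (K + v) - 1)) :
    n * (m + 1).choose 2 ≤ N ∧
      EmpG 0 (fun o : Option (Fin (N - n * (m + 1).choose 2)) => o.elim n fun _ => 1)
        (fun o => o.elim m fun _ => 1) S := by
  classical
  obtain ⟨W, hW, hWS, hW0, hrow⟩ := exists_Wg h (A := K * η) (x0 := 0) (M₁ := m)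
    (R := fun l => n * (m - l))
    (by
      intro l hl
      rw [h.sum]
      push_cast [Nat.cast_sub hl.le]
      linarith)
    (by
      intro k' l hkl hl
      push_cast [Nat.cast_sub hl.le, Nat.cast_sub (hkl.trans hl.le)]
      have h1 : (k' : ℝ) ≤ l := by exact_mod_cast hkl
      have h2 : (2 : ℝ) ≤ n := by exact_mod_cast hn
      nlinarith)
  rw [sum_rows] at hW
  have hB : (BP M K η).Finite := hS.subset hBS
  have hKM := h.hKM
  have hK := h.hK
  have hconv : ∀ a b T k : ℤ, (a, b) ∈ BP M K η → (a, b + T) ∈ BP M K η → 0 ≤ k → k ≤ T →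
      (a, b + k) ∈ BP M K η := by
    intro a b T k g1 g2 hk hkT
    obtain ⟨⟨g1, g2', g3⟩, g0⟩ := g1
    obtain ⟨⟨g4, g5, g6⟩, _⟩ := g2
    simp only at g0 g1 g2' g3 g4 g5 g6
    push_cast at g5 g6
    have hkT' : (k : ℝ) ≤ T := by exact_mod_cast hkT
    have hk0 : (0 : ℝ) ≤ k := by exact_mod_cast hk
    refine ⟨⟨by simp only; omega, ?_, ?_⟩, g0⟩
    · simp only
      push_cast
      have : 0 ≤ (K - M) * k := mul_nonneg (by linarith) hk0
      linarith
    · simp only
      push_cast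
      have : 0 ≤ K * ((T : ℝ) - k) := mul_nonneg (by linarith) (by linarith)
      linarith
  have hB0 : ∀ m ∈ BP M K η, 0 ≤ m.2 := fun m hm => hm.1.1
  obtain ⟨h3, h4⟩ := fl_card hB hB0 hconv
  have hmaps : ∀ m ∈ H4 q v K (K * η) False 0,
      ((m.1 + v * m.2, m.2) : ℤ × ℤ) ∈ FlS (BP M K η) := by
    rintro ⟨a, k⟩ ⟨hk, hm | ⟨hm, _, _⟩⟩
    · exact bp_fl h hk hm.1 hm.2.1 hm.2.2
    · exact absurd hm id
  have hinj : Set.InjOn (fun m : ℤ × ℤ => ((m.1 + v * m.2, m.2) : ℤ × ℤ))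
      (H4 q v K (K * η) False 0) := by
    rintro ⟨a, k⟩ _ ⟨a', k'⟩ _ he
    simp only [Prod.mk.injEq] at he
    obtain ⟨he, rfl⟩ := he
    ext
    · simp only; omega
    · rfl
  have hfin : (H4 q v K (K * η) False 0).Finite := Set.Finite.of_injOn hmaps hinj h3
  have hcard := Set.ncard_le_ncard_of_injOn _ hmaps hinj h3
  obtain ⟨h5, h6⟩ := fl_card hfin (fun m hm => hm.1) (fun a b T k => hg_conv h a b T k)
  have hWle : W.card ≤ (FlS (H4 q v K (K * η) False 0)).ncard := by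
    rw [← Set.ncard_coe_finset W]
    exact Set.ncard_le_ncard (fun q hq => hWS q hq) h5
  -- the difference
  have hD : (S \ BP M K η).Finite := hS.subset Set.sdiff_subset
  have hDc : (BP M K η).ncard + hD.toFinset.card = S.ncard := by
    rw [← Set.ncard_eq_toFinset_card _ hD, add_comm, Set.ncard_sdiff_add_ncard_of_subset hBS hS]
  have hE0 : EmpG 0 (fun o : Option (Fin (N - n * (m + 1).choose 2 - hD.toFinset.card)) =>
      o.elim n fun _ => 1) (fun o => o.elim m fun _ => 1) (BP M K η) := by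
    have e0 := EmpG_add (v := N - n * (m + 1).choose 2 - hD.toFinset.card) (r := n) (m := m)
      (Or.inl rfl) h5 hWS (by omega) hW0 hrow
    have e1 : EmpG 0 (fun o : Option (Fin (N - n * (m + 1).choose 2 - hD.toFinset.card)) =>
        o.elim n fun _ => 1) (fun o => o.elim m fun _ => 1) (H4 q v K (K * η) False 0) := by
      refine e0.flat0 ?_
      intro a b T k h1 h2 hk hkT
      exact ⟨hk, b, h1, hg_conv h a b T k h1 h2 hk hkT⟩
    have e2 : EmpG 0 (fun o : Option (Fin (N - n * (m + 1).choose 2 - hD.toFinset.card)) =>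
        o.elim n fun _ => 1) (fun o => o.elim m fun _ => 1) (G4 q K (K * η) False 0) := by
      refine e1.shear (-(v : ℤ)) ?_
      rintro ⟨a, k⟩ hm
      show ((a + -(v : ℤ) * k + v * k, k) : ℤ × ℤ) ∈ G4 q K (K * η) False 0
      have e2 : a + -(v : ℤ) * k + v * k = a := by ring
      rw [e2]
      exact hm
    refine e2.flat0 ?_
    intro a b T k h1 h2 hk hkT
    obtain ⟨g3, g4, g5⟩ := fl_bp h hz h1 h2 hkT
    exact ⟨hk, Or.inl ⟨g3, g4, g5⟩⟩
  have hE1 := EmpG_union hD.toFinset hE0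
  rw [Set.Finite.coe_toFinset, Set.union_sdiff_self, Set.union_eq_self_of_subset_left hBS] at hE1
  refine ⟨by omega, ?_⟩
  have e2 : N - n * (m + 1).choose 2 - hD.toFinset.card + hD.toFinset.card =
      N - n * (m + 1).choose 2 := by omega
  rw [e2] at hE1
  exact hE1

end

end Pool.Agent.L7h13.NQ
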